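import Mathlib

/-! A packing inequality. -/

open Finset

namespace Pool.Agent.MP_8b9287_co

/-- binomial coefficient `C(s+a, a)`, zero for negative `s` -/
def M2 (a : ℕ) (s : ℤ) : ℕ := if 0 ≤ s then (s.toNat + a).choose a else 0

theorem M2_neg (a : ℕ) {s : ℤ} (h : s < 0) : M2 a s = 0 := if_neg (not_le.2 h)

theorem M2_zero (s : ℤ) : M2 0 s = if 0 ≤ s then 1 else 0 := by simp [M2]

theorem M2_succ (a : ℕ) (s : ℤ) : M2 (a + 1) s = M2 a s + M2 (a + 1) (s - 1) := by
  rcases lt_trichotomy s 0 with h | rfl | h
  · rw [M2_neg _ h, M2_neg _ h, M2_neg _ (by omega)]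
  · rw [M2_neg _ (s := 0 - 1) (by omega)]; simp [M2]
  · obtain ⟨j, rfl⟩ : ∃ j : ℕ, s = j + 1 := ⟨(s - 1).toNat, by omega⟩
    have e1 : ((j : ℤ) + 1).toNat = j + 1 := by omega
    have e2 : ((j : ℤ) + 1 - 1).toNat = j := by omega
    simp only [M2, if_pos h.le, if_pos (show (0 : ℤ) ≤ j + 1 - 1 by omega), e1, e2]
    rw [show j + 1 + (a + 1) = (j + 1 + a) + 1 by ring, Nat.choose_succ_succ,
      show j + (a + 1) = j + 1 + a by ring]

theorem pack {α ι : Type} [DecidableEq α] [DecidableEq ι] (m : ℤ) (hm : 0 ≤ m) (n : ℕ) :
    ∀ (E : Finset α) (_ : E.card = n) (a : ℕ) (T : Finset ι) (H : ι → Finset α)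
      (_ : ∀ i ∈ T, H i ⊆ E ∧ (H i).card < E.card)
      (_ : ∀ i ∈ T, ∀ j ∈ T, i ≠ j → (H i ∩ H j).card + 1 ≤ a),
      ∑ i ∈ T, M2 a ((H i).card - (a + 1) - m) ≤ M2 a (E.card - 1 - (a + 1) - m) := by
  induction n with
  | zero =>
    intro E hE a T H h1 _
    rw [Finset.sum_eq_zero (fun i hi => by have := (h1 i hi).2; omega)]
    exact Nat.zero_le _
  | succ n ih =>
    intro E hE a T H h1 h2
    by_cases hb : ∃ i ∈ T, (H i).card + 1 = E.card
    · obtain ⟨i, hi, hc⟩ := hb
      rw [Finset.sum_eq_single_of_mem i hi]
      · apply le_of_eq; congr 1; omega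
      · intro j hj hji
        apply M2_neg
        have h3 := h2 j hj i hi hji
        have h4 := card_union_add_card_inter (H j) (H i)
        have h5 := card_le_card (union_subset (h1 j hj).1 (h1 i hi).1)
        omega
    · push Not at hb
      cases a with
      | zero =>
        rcases T.eq_empty_or_nonempty with rfl | ⟨i, hi⟩
        · simp
        · rw [Finset.sum_eq_single_of_mem i hi]
          · have := (h1 i hi).2
            simp only [M2_zero]
            split_ifs <;> omega
          · intro j hj hji
            have := h2 j hj i hi hji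
            omega
      | succ a =>
        obtain ⟨e, he⟩ : E.Nonempty := card_pos.1 (by omega)
        have hE' : (E.erase e).card = n := by rw [card_erase_of_mem he]; omega
        have h3 : ∀ i ∈ T, (H i).erase e ⊆ E.erase e ∧ ((H i).erase e).card < (E.erase e).card := by
          intro i hi
          refine ⟨erase_subset_erase e (h1 i hi).1, ?_⟩
          have := card_erase_le (s := H i) (a := e)
          have := hb i hi
          have := (h1 i hi).2
          omega
        have A := ih (E.erase e) hE' (a + 1) T (fun i => (H i).erase e) h3 (by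
          intro i hi j hj hij
          have := card_le_card (inter_subset_inter (erase_subset e (H i)) (erase_subset e (H j)))
          have := h2 i hi j hj hij
          omega)
        have B := ih (E.erase e) hE' a (T.filter fun i => e ∈ H i) (fun i => (H i).erase e)
          (fun i hi => h3 i (mem_filter.1 hi).1) (by
            intro i hi j hj hij
            obtain ⟨hi, hi'⟩ := mem_filter.1 hi
            obtain ⟨hj, hj'⟩ := mem_filter.1 hj
            have h4 : (H i).erase e ∩ (H j).erase e = (H i ∩ H j).erase e := by
              ext x; simp only [mem_inter, mem_erase]; tauto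
            have h5 := card_erase_add_one (mem_inter.2 ⟨hi', hj'⟩)
            have := h2 i hi j hj hij
            simp only [h4]
            omega)
        rw [Finset.sum_filter] at B
        rw [M2_succ]
        have e1 : ((E.card : ℤ) - 1 - ((a + 1 : ℕ) + 1) - m) = (E.erase e).card - 1 - (a + 1) - m := by
          rw [hE', hE]; push_cast; ring
        have e2 : ((E.card : ℤ) - 1 - ((a + 1 : ℕ) + 1) - m - 1) =
            (E.erase e).card - 1 - ((a + 1 : ℕ) + 1) - m := by
          rw [hE', hE]; push_cast; ring
        rw [e2, e1]
        refine le_trans (le_of_eq ?_) (add_le_add B A)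
        rw [← sum_add_distrib]
        apply Finset.sum_congr rfl
        intro i _
        split_ifs with h
        · have := card_erase_add_one h
          rw [M2_succ]
          congr 2 <;> (push_cast; omega)
        · rw [erase_eq_of_notMem h, zero_add]

end Pool.Agent.MP_8b9287_co
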