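import Pool.Agent.MP_8b9287_co.JT
import Pool.Agent.MP_8b9287_co.Pack

/-! The combinatorial core. -/

open Finset

namespace Pool.Agent.MP_8b9287_co

open PowerSeries

/-- sum of the coefficients in degree at least `r` -/
noncomputable def tau (r : ℕ) : Polynomial ℚ →ₗ[ℚ] ℚ :=
  Polynomial.lsum fun q => if r ≤ q then LinearMap.id else 0

theorem tau_monomial (r q : ℕ) (c : ℚ) :
    tau r (Polynomial.monomial q c) = if r ≤ q then c else 0 := by
  rw [tau, Polynomial.lsum_apply, Polynomial.sum_monomial_index _ _ (by simp)]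
  split_ifs <;> simp

theorem tau_X_pow (r q : ℕ) : tau r (Polynomial.X ^ q) = if r ≤ q then 1 else 0 := by
  rw [← Polynomial.monomial_one_right_eq_X_pow, tau_monomial]

variable {k : ℕ}

/-- specialised Schur numbers -/
noncomputable def cc (r : ℕ) (ν : Fin k → ℤ) (i : ℕ) : ℚ :=
  tau r (SS ν (Polynomial.X ::ₘ Multiset.replicate i 1))

/-- generating function of the mixed determinants -/
noncomputable def BB (r : ℕ) (ν : Fin k → ℤ) (ρ : ℕ) : PowerSeries ℚ :=
  PowerSeries.mk fun i => tau r (MM ν (Polynomial.X ::ₘ Multiset.replicate i 1) 1 ρ).det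

theorem BB_top (r : ℕ) (ν : Fin k → ℤ) : BB r ν k = PowerSeries.mk (cc r ν) := by
  ext i
  simp only [BB, coeff_mk, MM_top, cc]

theorem BB_top_eq (r : ℕ) (ν : Fin k → ℤ) : BB r ν k = C (cc r ν 0) + X * BB r ν 0 := by
  rw [BB_top]
  ext i
  cases i with
  | zero => simp
  | succ i =>
    simp only [BB, coeff_mk, map_add, coeff_succ_X_mul, MM_zero, cc, coeff_succ_C, zero_add,
      Multiset.replicate_succ]
    rw [Multiset.cons_swap]

theorem BB_rec (r : ℕ) (ν : Fin k → ℤ) (ρ : Fin k) :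
    BB r ν ρ = BB r ν (ρ + 1) + BB r (dec ν ρ) ρ := by
  ext i
  simp only [BB, coeff_mk, map_add]
  rw [MM_rec, one_mul, map_add]

theorem BB_vanish (r : ℕ) (ν : Fin k → ℤ) (hν : Part ν) (ρ : Fin k) (h : ¬ Part (dec ν ρ)) :
    BB r (dec ν ρ) ρ = 0 := by
  ext i
  simp only [BB, coeff_mk, MM_vanish ν hν _ _ ρ h, map_zero]

theorem BB_sum (r : ℕ) (ν : Fin k → ℤ) (ρ : ℕ) (hρ : ρ ≤ k) :
    BB r ν 0 = BB r ν ρ + ∑ j : Fin k, if (j : ℕ) < ρ then BB r (dec ν j) j else 0 := by
  induction ρ with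
  | zero => simp
  | succ ρ ih =>
    rw [ih (by omega)]
    have h := BB_rec r ν ⟨ρ, hρ⟩
    simp only at h
    rw [h, add_assoc]
    congr 1
    rw [← Finset.add_sum_erase univ _ (mem_univ (⟨ρ, hρ⟩ : Fin k)),
      ← Finset.add_sum_erase univ _ (mem_univ (⟨ρ, hρ⟩ : Fin k))]
    simp only [lt_irrefl, if_false, Nat.lt_succ_self, if_true, zero_add]
    congr 1
    apply Finset.sum_congr rfl
    intro j hj
    have : (j : ℕ) ≠ ρ := fun e => ne_of_mem_erase hj (Fin.ext e)
    have h2 : ((j : ℕ) < ρ) ↔ ((j : ℕ) < ρ + 1) := by omega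
    simp only [h2]

theorem BB_main (r : ℕ) (ν : Fin k → ℤ) (ρ : ℕ) (hρ : ρ ≤ k) :
    (1 - X) * BB r ν ρ = C (cc r ν 0) +
      ∑ j : Fin k, (if (j : ℕ) < ρ then X else 1) * BB r (dec ν j) j := by
  have h1 := BB_sum r ν ρ hρ
  have h2 := BB_sum r ν k le_rfl
  simp only [Fin.is_lt, if_true] at h2
  rw [BB_top_eq] at h2
  have h3 : ∑ j : Fin k, (if (j : ℕ) < ρ then X else 1) * BB r (dec ν j) j =
      ∑ j : Fin k, BB r (dec ν j) j -
        (1 - X) * ∑ j : Fin k, if (j : ℕ) < ρ then BB r (dec ν j) j else 0 := by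
    rw [Finset.mul_sum, ← Finset.sum_sub_distrib]
    apply Finset.sum_congr rfl
    intro j _
    split_ifs <;> ring
  rw [h3]
  linear_combination h2 - (1 - X) * h1

/-- polynomial of degree at most `a` with coefficient `v` in degree `a` -/
def Top (Q : PowerSeries ℚ) (a : ℕ) (v : ℚ) : Prop :=
  (∀ b, a < b → coeff b Q = 0) ∧ coeff a Q = v

theorem Top.add {Q Q' : PowerSeries ℚ} {a : ℕ} {v v' : ℚ} (h : Top Q a v) (h' : Top Q' a v') :
    Top (Q + Q') a (v + v') :=
  ⟨fun b hb => by rw [map_add, h.1 b hb, h'.1 b hb, add_zero], by rw [map_add, h.2, h'.2]⟩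

theorem Top.zero (a : ℕ) : Top 0 a 0 := ⟨fun _ _ => by simp, by simp⟩

theorem Top.sum {ι : Type} (s : Finset ι) {Q : ι → PowerSeries ℚ} {a : ℕ} {v : ι → ℚ}
    (h : ∀ i ∈ s, Top (Q i) a (v i)) : Top (∑ i ∈ s, Q i) a (∑ i ∈ s, v i) :=
  ⟨fun b hb => by rw [map_sum]; exact Finset.sum_eq_zero fun i hi => (h i hi).1 b hb,
    by rw [map_sum]; exact Finset.sum_congr rfl fun i hi => (h i hi).2⟩

theorem Top.X_mul {Q : PowerSeries ℚ} {a : ℕ} {v : ℚ} (h : Top Q a v) : Top (X * Q) (a + 1) v := by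
  refine ⟨fun b hb => ?_, by rw [coeff_succ_X_mul, h.2]⟩
  obtain ⟨b, rfl⟩ : ∃ c, b = c + 1 := ⟨b - 1, by omega⟩
  rw [coeff_succ_X_mul, h.1 b (by omega)]

theorem Top.lower {Q : PowerSeries ℚ} {a : ℕ} {v : ℚ} (h : Top Q a v) : Top Q (a + 1) 0 :=
  ⟨fun b hb => h.1 b (by omega), h.1 _ (by omega)⟩

/-- the geometric series -/
noncomputable def om : PowerSeries ℚ := PowerSeries.mk 1

theorem om_mul : om * (1 - X) = 1 := PowerSeries.mk_one_mul_one_sub_eq_one ℚ

/-- normalised generating function -/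
noncomputable def NB (r s : ℕ) (ν : Fin k → ℤ) (ρ : ℕ) : PowerSeries ℚ :=
  (1 - X) ^ s * om ^ r * BB r ν ρ

theorem NB_main (r s : ℕ) (ν : Fin k → ℤ) (ρ : ℕ) (hρ : ρ ≤ k) :
    NB r (s + 1) ν ρ = (1 - X) ^ s * om ^ r * C (cc r ν 0) +
      ∑ j : Fin k, (if (j : ℕ) < ρ then X else 1) * NB r s (dec ν j) j := by
  have h := BB_main r ν ρ hρ
  have : ∑ j : Fin k, (if (j : ℕ) < ρ then X else 1) * NB r s (dec ν j) j =
      (1 - X) ^ s * om ^ r * ∑ j : Fin k, (if (j : ℕ) < ρ then X else 1) * BB r (dec ν j) j := by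
    rw [Finset.mul_sum]
    exact Finset.sum_congr rfl fun j _ => by rw [NB]; ring
  rw [this, NB]
  linear_combination (1 - X) ^ s * om ^ r * h

theorem X_mul_NB (r s : ℕ) (ν : Fin k → ℤ) :
    X * NB r s ν 0 = NB r s ν k - (1 - X) ^ s * om ^ r * C (cc r ν 0) := by
  rw [NB, NB, BB_top_eq]; ring

theorem dec_cons_zero (L : ℤ) (μ : Fin k → ℤ) :
    dec (Fin.cons L μ : Fin (k + 1) → ℤ) 0 = Fin.cons (L - 1) μ := by
  simp [dec]

theorem dec_cons_succ (L : ℤ) (μ : Fin k → ℤ) (j : Fin k) :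
    dec (Fin.cons L μ : Fin (k + 1) → ℤ) j.succ = Fin.cons L (dec μ j) := by
  simp [dec, Fin.cons_update]

theorem part_cons {L : ℤ} {μ : Fin k → ℤ} :
    Part (Fin.cons L μ : Fin (k + 1) → ℤ) ↔ Part μ ∧ 0 ≤ L ∧ ∀ i, μ i ≤ L := by
  constructor
  · rintro ⟨h1, h2⟩
    refine ⟨⟨fun i j hij => ?_, fun i => by simpa using h2 i.succ⟩, by simpa using h2 0, fun i => ?_⟩
    · simpa using h1 (Fin.succ_le_succ_iff.2 hij)
    · simpa using h1 (Fin.zero_le i.succ)
  · rintro ⟨⟨h1, h2⟩, h3, h4⟩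
    constructor
    · intro i j hij
      rcases Fin.eq_zero_or_eq_succ i with rfl | ⟨i, rfl⟩ <;>
        rcases Fin.eq_zero_or_eq_succ j with rfl | ⟨j, rfl⟩
      · exact le_rfl
      · simpa using h4 j
      · simp at hij
      · simpa using h1 (Fin.succ_le_succ_iff.1 hij)
    · intro i
      rcases Fin.eq_zero_or_eq_succ i with rfl | ⟨i, rfl⟩
      · simpa using h3
      · simpa using h2 i

theorem NB_cons (r s : ℕ) (L : ℤ) (μ : Fin k → ℤ) (ρ : ℕ) (h1 : 1 ≤ ρ) (hρ : ρ ≤ k + 1) :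
    NB r (s + 1) (Fin.cons L μ : Fin (k + 1) → ℤ) ρ =
      (1 - X) ^ s * om ^ r * C (cc r (Fin.cons L μ : Fin (k + 1) → ℤ) 0) +
      X * NB r s (Fin.cons (L - 1) μ : Fin (k + 1) → ℤ) 0 +
      ∑ j : Fin k, (if (j : ℕ) + 1 < ρ then X else 1) *
        NB r s (Fin.cons L (dec μ j) : Fin (k + 1) → ℤ) (j + 1) := by
  rw [NB_main r s _ ρ hρ, Fin.sum_univ_succ, dec_cons_zero, add_assoc]
  simp only [dec_cons_succ, Fin.val_zero, Fin.val_succ]
  rw [if_pos (by omega)]

theorem cc_single (r L : ℕ) :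
    cc r (Fin.cons (L : ℤ) (0 : Fin k → ℤ) : Fin (k + 1) → ℤ) 0 = if r ≤ L then 1 else 0 := by
  rw [cc, Multiset.replicate_zero, SS_single_row, tau_X_pow]

theorem NB_single (r L : ℕ) (ρ : ℕ) (h1 : 1 ≤ ρ) (hρ : ρ ≤ k + 1) :
    NB r (L + 1) (Fin.cons (L : ℤ) (0 : Fin k → ℤ) : Fin (k + 1) → ℤ) ρ =
      if r ≤ L then 1 else 0 := by
  have hz : Part (0 : Fin k → ℤ) := ⟨fun _ _ _ => le_rfl, fun _ => le_rfl⟩
  have hv : ∀ (L s : ℕ) (j : Fin k),
      NB r s (Fin.cons (L : ℤ) (dec 0 j) : Fin (k + 1) → ℤ) (j + 1) = 0 := by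
    intro L s j
    have := BB_vanish r (Fin.cons (L : ℤ) (0 : Fin k → ℤ) : Fin (k + 1) → ℤ)
      (part_cons.2 ⟨hz, by omega, fun _ => by simp⟩) j.succ (by
        rw [dec_cons_succ, part_cons]
        rintro ⟨⟨-, h⟩, -⟩
        have := h j
        rw [dec_self] at this
        simp at this)
    rw [dec_cons_succ, Fin.val_succ] at this
    rw [NB, this, mul_zero]
  induction L generalizing ρ with
  | zero =>
    rw [NB_cons r 0 _ _ ρ h1 hρ, cc_single]
    have := BB_vanish r (Fin.cons ((0 : ℕ) : ℤ) (0 : Fin k → ℤ) : Fin (k + 1) → ℤ)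
      (part_cons.2 ⟨hz, by omega, fun _ => by simp⟩) 0 (by
        rw [dec_cons_zero, part_cons]
        rintro ⟨-, h, -⟩
        omega)
    rw [dec_cons_zero, Fin.val_zero] at this
    simp only [hv, mul_zero, sum_const_zero, add_zero]
    rw [NB, this]
    split_ifs with h
    · obtain rfl : r = 0 := by omega
      simp
    · simp
  | succ L ih =>
    rw [NB_cons r (L + 1) _ _ ρ h1 hρ, cc_single, X_mul_NB]
    simp only [hv, mul_zero, sum_const_zero, add_zero]
    rw [show ((L + 1 : ℕ) : ℤ) - 1 = L by push_cast; ring, ih (k + 1) (by omega) le_rfl, cc_single]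
    by_cases h : r ≤ L
    · rw [if_pos h, if_pos h, if_pos (by omega), if_pos (by omega)]; ring
    · rw [if_neg h, if_neg h]
      by_cases h' : r ≤ L + 1
      · obtain rfl : r = L + 1 := by omega
        rw [if_pos h', if_pos h', ← mul_pow, mul_comm _ om, om_mul]
        simp
      · rw [if_neg h', if_neg h']; simp

/-- the value attached to a multiset of labels -/
noncomputable def val (𝓜 : Multiset (ℕ × ℕ)) (κ : ℕ) (s : ℤ) (ρ : ℕ) : ℚ :=
  (𝓜.map fun p => (M2 κ (s - p.2 - if ρ ≤ p.1 then 1 else 0) : ℚ)).sum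

theorem mmap_sum {ι β γ : Type} (s : Finset ι) (f : β → γ) (g : ι → Multiset β) :
    (∑ i ∈ s, g i).map f = ∑ i ∈ s, (g i).map f :=
  map_sum (Multiset.mapAddMonoidHom f) g s

theorem cc_two (r : ℕ) (L : ℤ) (μ : Fin k → ℤ) (hμ : Part μ) (hL : ∀ i, μ i ≤ L)
    (hs : 0 < ∑ i, μ i) : cc r (Fin.cons L μ : Fin (k + 1) → ℤ) 0 = 0 := by
  cases k with
  | zero => simp at hs
  | succ k =>
    rw [cc, Multiset.replicate_zero, SS_two_rows, map_zero]
    · simpa using hL 0
    · by_contra hc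
      have h0 : μ 0 ≤ 0 := by
        have : (Fin.cons L μ : Fin (k + 2) → ℤ) 1 = μ 0 := rfl
        omega
      have : ∑ i, μ i ≤ 0 := Finset.sum_nonpos fun i _ => (hμ.1 (Fin.zero_le i)).trans h0
      omega

theorem comb (κ : ℕ) : ∀ μ : Fin k → ℤ, Part μ → ∑ i, μ i = κ → ∃ 𝓜 : Multiset (ℕ × ℕ),
    (∀ p ∈ 𝓜, p.1 ≤ k ∧ (∀ i, μ i ≤ p.2 + 1) ∧ (p.1 = 0 → κ = 0)) ∧
    ∀ r L : ℕ, 1 ≤ L → (∀ i, μ i ≤ L) → ∀ ρ, 1 ≤ ρ → ρ ≤ k + 1 →
      Top (NB r (L + κ + 1) (Fin.cons (L : ℤ) μ : Fin (k + 1) → ℤ) ρ) κ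
        (val 𝓜 κ (L - max r 1) ρ) := by
  induction κ with
  | zero =>
    intro μ hμ hs
    obtain rfl : μ = 0 := by
      funext i
      exact (Finset.sum_eq_zero_iff_of_nonneg (fun i _ => hμ.2 i)).1 hs i (mem_univ i)
    refine ⟨{(0, 0)}, by simp, fun r L hL _ ρ h1 h2 => ?_⟩
    rw [add_zero, NB_single r L ρ h1 h2]
    have : val {(0, 0)} 0 (L - max r 1) ρ = if r ≤ L then 1 else 0 := by
      simp only [val, Multiset.map_singleton, Multiset.sum_singleton, M2_zero]
      rw [if_neg (show ¬ ρ ≤ 0 by omega)]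
      by_cases h : r ≤ L
      · rw [if_pos h, if_pos (by omega)]; simp
      · rw [if_neg h, if_neg (by omega)]; simp
    rw [this]
    split_ifs
    · exact ⟨fun b hb => by rw [coeff_one, if_neg (by omega)], by simp⟩
    · exact Top.zero 0
  | succ κ ih =>
    intro μ hμ hs
    have hj : ∀ j : Fin k, ∃ 𝓜 : Multiset (ℕ × ℕ),
        (∀ p ∈ 𝓜, p.1 ≤ k ∧ (∀ i, dec μ j i ≤ p.2 + 1) ∧ (p.1 = 0 → ∀ i, dec μ j i = 0)) ∧
        ∀ r L : ℕ, 1 ≤ L → (∀ i, μ i ≤ L) →
          Top (NB r (L + κ + 1) (Fin.cons (L : ℤ) (dec μ j) : Fin (k + 1) → ℤ) (j + 1)) κ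
            (val 𝓜 κ (L - max r 1) (j + 1)) := by
      intro j
      by_cases hp : Part (dec μ j)
      · have hs' : ∑ i, dec μ j i = κ := by rw [sum_dec, hs]; push_cast; ring
        obtain ⟨𝓜, h1, h2⟩ := ih (dec μ j) hp hs'
        refine ⟨𝓜, fun p hp' => ⟨(h1 p hp').1, (h1 p hp').2.1, fun h0 i => ?_⟩,
          fun r L hL hL' => h2 r L hL (fun i => ?_) _ (by omega) (by omega)⟩
        · rw [(h1 p hp').2.2 h0] at hs'
          exact (Finset.sum_eq_zero_iff_of_nonneg (fun i _ => hp.2 i)).1 hs' i (mem_univ i)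
        · have := hL' i
          by_cases hi : i = j
          · rw [hi, dec_self]; rw [hi] at this; omega
          · rwa [dec_ne μ hi]
      · refine ⟨0, by simp, fun r L hL hL' => ?_⟩
        have := BB_vanish r (Fin.cons (L : ℤ) μ : Fin (k + 1) → ℤ)
          (part_cons.2 ⟨hμ, by omega, hL'⟩) j.succ (by
            rw [dec_cons_succ, part_cons]
            exact fun h => hp h.1)
        rw [dec_cons_succ, Fin.val_succ] at this
        rw [NB, this, mul_zero]
        exact Top.zero κ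
    choose 𝓝 hN1 hN2 using hj
    let 𝓜 : Multiset (ℕ × ℕ) := ∑ j : Fin k, (𝓝 j).map fun p =>
      ((j : ℕ) + 1, p.2 + if (j : ℕ) + 1 ≤ p.1 then 1 else 0)
    have hM : ∀ p ∈ 𝓜, p.1 ≤ k ∧ (∀ i, μ i ≤ p.2 + 1) ∧ (p.1 = 0 → κ + 1 = 0) := by
      intro p hp
      simp only [𝓜, Multiset.mem_sum, Multiset.mem_map] at hp
      obtain ⟨j, -, q, hq, rfl⟩ := hp
      obtain ⟨h1, h2, h3⟩ := hN1 j q hq
      refine ⟨j.2, fun i => ?_, fun h => by simp at h⟩
      by_cases hi : i = j
      · subst hi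
        by_cases h0 : (i : ℕ) = 0
        · by_cases hq0 : q.1 = 0
          · have := h3 hq0 i
            rw [dec_self] at this
            push_cast
            split_ifs <;> omega
          · have := h2 i
            rw [dec_self] at this
            simp only
            rw [if_pos (by omega)]
            push_cast
            omega
        · let z : Fin k := ⟨0, by omega⟩
          have hz : z ≠ i := fun e => h0 (by rw [← e])
          have := h2 z
          rw [dec_ne μ hz] at this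
          have := hμ.1 (show z ≤ i from Fin.le_def.2 (Nat.zero_le _))
          push_cast
          split_ifs <;> omega
      · have := h2 i
        rw [dec_ne μ hi] at this
        push_cast
        split_ifs <;> omega
    have hpos : ∃ i, 1 ≤ μ i := by
      by_contra hc
      push Not at hc
      have : ∑ i, μ i ≤ 0 := Finset.sum_nonpos fun i _ => by have := hc i; omega
      omega
    have hval : ∀ (s : ℤ) (ρ : ℕ), val 𝓜 (κ + 1) s ρ = val 𝓜 (κ + 1) (s - 1) (k + 1) +
        ∑ j : Fin k, if (j : ℕ) + 1 < ρ then val (𝓝 j) κ s (j + 1) else 0 := by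
      intro s ρ
      simp only [val, 𝓜, mmap_sum, Multiset.sum_sum, Multiset.map_map, Function.comp_def]
      rw [← Finset.sum_add_distrib]
      apply Finset.sum_congr rfl
      intro j _
      have hjk : ¬ k + 1 ≤ (j : ℕ) + 1 := by have := j.2; omega
      simp only [if_neg hjk]
      by_cases h : (j : ℕ) + 1 < ρ
      · rw [if_pos h, ← Multiset.sum_map_add]
        simp only [if_neg (not_le.2 h)]
        congr 1
        apply Multiset.map_congr rfl
        intro p _
        rw [M2_succ]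
        push_cast
        rw [add_comm]
        congr 3 <;> ring
      · rw [if_neg h, add_zero]
        simp only [if_pos (not_lt.1 h)]
        congr 1
        apply Multiset.map_congr rfl
        intro p _
        congr 2
        ring
    refine ⟨𝓜, hM, fun r L => ?_⟩
    induction L with
    | zero => intro h; omega
    | succ L ihL =>
      intro hL hL' ρ h1 h2
      rw [NB_cons r _ _ _ ρ h1 h2, cc_two r _ μ hμ hL' (by omega), map_zero, mul_zero, zero_add,
        hval]
      refine Top.add ?_ (Top.sum _ fun j _ => ?_)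
      · rw [show ((L + 1 : ℕ) : ℤ) - 1 = L by push_cast; ring]
        by_cases hp : ∀ i, μ i ≤ L
        · rw [X_mul_NB, cc_two r _ μ hμ hp (by omega), map_zero, mul_zero, sub_zero]
          obtain ⟨i, hi⟩ := hpos
          have := ihL (by have := hp i; omega) hp (k + 1) (by omega) le_rfl
          convert this using 2
          · ring
          · push_cast; ring
        · have := BB_vanish r (Fin.cons ((L + 1 : ℕ) : ℤ) μ : Fin (k + 1) → ℤ)
            (part_cons.2 ⟨hμ, by omega, hL'⟩) 0 (by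
              rw [dec_cons_zero, part_cons]
              rintro ⟨-, -, h⟩
              exact hp fun i => by have := h i; push_cast at this; omega)
          rw [dec_cons_zero, Fin.val_zero, show ((L + 1 : ℕ) : ℤ) - 1 = L by push_cast; ring] at this
          rw [NB, this, mul_zero, mul_zero]
          convert Top.zero (κ + 1)
          push Not at hp
          obtain ⟨i, hi⟩ := hp
          apply Multiset.sum_eq_zero
          intro x hx
          obtain ⟨p, hp, rfl⟩ := Multiset.mem_map.1 hx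
          have := (hM p hp).2.1 i
          rw [M2_neg, Nat.cast_zero]
          split_ifs <;> omega
      · have := hN2 j r (L + 1) hL hL'
        rw [show L + 1 + (κ + 1) = L + 1 + κ + 1 by ring]
        split_ifs
        · exact this.X_mul
        · rw [one_mul]; exact this.lower

theorem coeff_one_sub_pow (h p : ℕ) :
    coeff p ((1 - X : PowerSeries ℚ) ^ h) = (-1) ^ p * (h.choose p : ℚ) := by
  induction h generalizing p with
  | zero => cases p <;> simp [coeff_one]
  | succ h ih =>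
    rw [pow_succ, mul_sub, mul_one, map_sub, ih]
    cases p with
    | zero => simp
    | succ p => rw [coeff_succ_mul_X, ih, Nat.choose_succ_succ]; push_cast; ring

/-- the final combinatorial formula -/
theorem comb_final (κ L : ℕ) (hL : 1 ≤ L) (μ : Fin k → ℤ) (hμ : Part μ) (hs : ∑ i, μ i = κ)
    (hL' : ∀ i, μ i ≤ L) : ∃ 𝓜 : Multiset ℕ, ∀ h r : ℕ, h + r = L + κ + 1 →
      ∑ i ∈ range (κ + 1), (-1) ^ (κ - i) * (h.choose (κ - i) : ℚ) *
        cc r (Fin.cons (L : ℤ) μ : Fin (k + 1) → ℤ) i =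
      (𝓜.map fun m : ℕ => (M2 κ (L - max r 1 - m) : ℚ)).sum := by
  obtain ⟨𝓜, h1, h2⟩ := comb κ μ hμ hs
  refine ⟨𝓜.map Prod.snd, fun h r hr => ?_⟩
  have h3 := (h2 r L hL hL' (k + 1) (by omega) le_rfl).2
  have h4 : (1 - X : PowerSeries ℚ) ^ (L + κ + 1) * om ^ r = (1 - X) ^ h := by
    rw [← hr, pow_add, mul_assoc, ← mul_pow, mul_comm _ om, om_mul, one_pow, mul_one]
  rw [NB, h4, BB_top, mul_comm, coeff_mul, Finset.Nat.sum_antidiagonal_eq_sum_range_succ_mk] at h3
  simp only [coeff_one_sub_pow, coeff_mk] at h3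
  rw [Multiset.map_map]
  refine Eq.trans (Finset.sum_congr rfl fun i _ => mul_comm _ _) (h3.trans ?_)
  unfold val
  congr 1
  apply Multiset.map_congr rfl
  intro p hp
  have := (h1 p hp).1
  rw [if_neg (by omega)]
  simp

end Pool.Agent.MP_8b9287_co
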