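import Mathlib

namespace Pool.Agent.MP_8b9287_co

/-- complete homogeneous symmetric polynomial of degree `m` in the values `t b`, `b ∈ B` -/
noncomputable def hsym {n : ℕ} (t : Fin n → ℚ) (B : Finset (Fin n)) (m : ℤ) : ℚ :=
  if 0 ≤ m then PowerSeries.coeff m.toNat (∏ b ∈ B, PowerSeries.mk fun j => t b ^ j) else 0

/-- Schur polynomial (Jacobi-Trudi determinant) in the values `t b`, `b ∈ B` -/
noncomputable def schur {n k : ℕ} (η : Fin k → ℕ) (t : Fin n → ℚ) (B : Finset (Fin n)) : ℚ :=
  Matrix.det (Matrix.of fun i j : Fin k => hsym t B ((η i : ℤ) - (i : ℕ) + (j : ℕ)))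

open Classical in
/-- the lexicographically first basis for the ordering `σ 0, σ 1, ...` of the ground set -/
noncomputable def lexBasis {n : ℕ} (M : Matroid (Fin n)) (σ : Equiv.Perm (Fin n)) :
    Finset (Fin n) :=
  Finset.univ.filter fun e => e ∉ M.closure {x | σ.symm x < σ.symm e}

/-- the localisation sum over the torus fixed points of the permutohedral variety -/
noncomputable def locSum {N k : ℕ} (M : Matroid (Fin (N + 1))) (η : Fin k → ℕ)
    (t : Fin (N + 1) → ℚ) : ℚ :=
  ∑ σ : Equiv.Perm (Fin (N + 1)),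
    schur η t (lexBasis M σ) / ∏ i : Fin N, (t (σ i.castSucc) - t (σ i.succ))

end Pool.Agent.MP_8b9287_co
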