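import Mathlib

/-! Jacobi-Trudi determinants. -/

open Finset

namespace Pool.Agent.MP_8b9287_co

variable {R : Type} [CommRing R]

/-- generating function of complete homogeneous symmetric polynomials -/
noncomputable def Hs (μ : Multiset R) : PowerSeries R :=
  (μ.map fun x => PowerSeries.mk fun j => x ^ j).prod

/-- complete homogeneous symmetric polynomials -/
noncomputable def hZ (μ : Multiset R) (m : ℤ) : R :=
  if 0 ≤ m then PowerSeries.coeff m.toNat (Hs μ) else 0

theorem hZ_neg (μ : Multiset R) {m : ℤ} (h : m < 0) : hZ μ m = 0 := if_neg (not_le.2 h)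

theorem geom_eq (x : R) : (PowerSeries.mk fun j => x ^ j) =
    1 + PowerSeries.C x * (PowerSeries.X * PowerSeries.mk fun j => x ^ j) := by
  ext n
  cases n with
  | zero => simp
  | succ n => simp [PowerSeries.coeff_succ_X_mul, PowerSeries.coeff_one, pow_succ']

theorem Hs_cons (x : R) (μ : Multiset R) :
    Hs (x ::ₘ μ) = Hs μ + PowerSeries.C x * (PowerSeries.X * Hs (x ::ₘ μ)) := by
  simp only [Hs, Multiset.map_cons, Multiset.prod_cons]
  nth_rewrite 1 [geom_eq x]
  ring

theorem hZ_cons (x : R) (μ : Multiset R) (m : ℤ) :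
    hZ (x ::ₘ μ) m = hZ μ m + x * hZ (x ::ₘ μ) (m - 1) := by
  rcases lt_trichotomy m 0 with h | rfl | h
  · rw [hZ_neg _ h, hZ_neg _ h, hZ_neg _ (by omega)]; simp
  · rw [hZ_neg _ (m := 0 - 1) (by omega)]
    simp only [hZ, le_refl, if_true, Int.toNat_zero]
    rw [Hs_cons]; simp
  · obtain ⟨j, rfl⟩ : ∃ j : ℕ, m = j + 1 := ⟨(m - 1).toNat, by omega⟩
    have e1 : ((j : ℤ) + 1).toNat = j + 1 := by omega
    have e2 : ((j : ℤ) + 1 - 1).toNat = j := by omega
    simp only [hZ, if_pos h.le, if_pos (show (0 : ℤ) ≤ j + 1 - 1 by omega), e1, e2]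
    nth_rewrite 1 [Hs_cons]
    simp [PowerSeries.coeff_succ_X_mul]

theorem hZ_zero_cons (μ : Multiset R) (m : ℤ) : hZ (0 ::ₘ μ) m = hZ μ m := by
  rw [hZ_cons]; simp

theorem hZ_replicate_zero (j : ℕ) (μ : Multiset R) (m : ℤ) :
    hZ (Multiset.replicate j 0 + μ) m = hZ μ m := by
  induction j with
  | zero => simp
  | succ j ih => rw [Multiset.replicate_succ, Multiset.cons_add, hZ_zero_cons, ih]

theorem hZ_singleton (x : R) (m : ℕ) : hZ (x ::ₘ 0) m = x ^ m := by
  simp [hZ, Hs]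

theorem map_hZ {R' : Type} [CommRing R'] (f : R →+* R') (μ : Multiset R) (m : ℤ) :
    f (hZ μ m) = hZ (μ.map f) m := by
  unfold hZ
  split_ifs
  · rw [← PowerSeries.coeff_map, Hs, Hs, map_multiset_prod, Multiset.map_map, Multiset.map_map]
    congr 3
    ext x n
    simp
  · exact map_zero f

variable {k : ℕ}

/-- Jacobi-Trudi determinant -/
noncomputable def SS (ν : Fin k → ℤ) (μ : Multiset R) : R :=
  Matrix.det (Matrix.of fun i j : Fin k => hZ μ (ν i - (i : ℕ) + (j : ℕ)))

theorem map_SS {R' : Type} [CommRing R'] (f : R →+* R') (ν : Fin k → ℤ) (μ : Multiset R) :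
    f (SS ν μ) = SS ν (μ.map f) := by
  rw [SS, RingHom.map_det, SS]
  congr 1
  ext i j
  simp [map_hZ]

theorem SS_replicate_zero (ν : Fin k → ℤ) (j : ℕ) (μ : Multiset R) :
    SS ν (Multiset.replicate j 0 + μ) = SS ν μ := by
  simp only [SS, hZ_replicate_zero]

/-- mixed Jacobi-Trudi matrix -/
noncomputable def MM (ν : Fin k → ℤ) (μ : Multiset R) (x : R) (ρ : ℕ) : Matrix (Fin k) (Fin k) R :=
  Matrix.of fun i j : Fin k => if (i : ℕ) < ρ then hZ μ (ν i - (i : ℕ) + (j : ℕ))
    else hZ (x ::ₘ μ) (ν i - (i : ℕ) + (j : ℕ))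

theorem MM_zero (ν : Fin k → ℤ) (μ : Multiset R) (x : R) : (MM ν μ x 0).det = SS ν (x ::ₘ μ) := by
  simp [MM, SS]

theorem MM_top (ν : Fin k → ℤ) (μ : Multiset R) (x : R) : (MM ν μ x k).det = SS ν μ := by
  simp [MM, SS]

/-- remove a box -/
def dec (ν : Fin k → ℤ) (ρ : Fin k) : Fin k → ℤ := Function.update ν ρ (ν ρ - 1)

theorem dec_self (ν : Fin k → ℤ) (ρ : Fin k) : dec ν ρ ρ = ν ρ - 1 := by simp [dec]

theorem dec_ne (ν : Fin k → ℤ) {ρ i : Fin k} (h : i ≠ ρ) : dec ν ρ i = ν i := by simp [dec, h]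

theorem sum_dec (ν : Fin k → ℤ) (ρ : Fin k) : ∑ i, dec ν ρ i = ∑ i, ν i - 1 := by
  rw [← Finset.add_sum_erase univ _ (mem_univ ρ), ← Finset.add_sum_erase univ ν (mem_univ ρ),
    dec_self, Finset.sum_congr rfl (fun i hi => dec_ne ν (ne_of_mem_erase hi))]
  ring

theorem MM_rec (ν : Fin k → ℤ) (μ : Multiset R) (x : R) (ρ : Fin k) :
    (MM ν μ x ρ).det = (MM ν μ x (ρ + 1)).det + x * (MM (dec ν ρ) μ x ρ).det := by
  have e1 : MM ν μ x ρ = (MM ν μ x ρ).updateRow ρ
      (MM ν μ x (ρ + 1) ρ + x • MM (dec ν ρ) μ x ρ ρ) := by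
    ext i j
    rw [Matrix.updateRow_apply]
    split_ifs with h
    · subst h
      simp only [MM, Matrix.of_apply, lt_irrefl, if_false, Pi.add_apply, Nat.lt_succ_self, if_true,
        Pi.smul_apply, smul_eq_mul, dec_self]
      rw [hZ_cons]
      congr 3
      ring
    · rfl
  have e2 : (MM ν μ x ρ).updateRow ρ (MM ν μ x (ρ + 1) ρ) = MM ν μ x (ρ + 1) := by
    ext i j
    rw [Matrix.updateRow_apply]
    split_ifs with h
    · rw [h]
    · have : (i : ℕ) ≠ ρ := fun e => h (Fin.ext e)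
      have h2 : ((i : ℕ) < ρ) ↔ ((i : ℕ) < ρ + 1) := by omega
      simp only [MM, Matrix.of_apply, h2]
  have e3 : (MM ν μ x ρ).updateRow ρ (MM (dec ν ρ) μ x ρ ρ) = MM (dec ν ρ) μ x ρ := by
    ext i j
    rw [Matrix.updateRow_apply]
    split_ifs with h
    · rw [h]
    · simp only [MM, Matrix.of_apply, dec_ne ν h]
  rw [e1, Matrix.det_updateRow_add, Matrix.det_updateRow_smul, e2, e3]

/-- partitions -/
def Part (ν : Fin k → ℤ) : Prop := Antitone ν ∧ ∀ i, 0 ≤ ν i

theorem MM_vanish (ν : Fin k → ℤ) (hν : Part ν) (μ : Multiset R) (x : R) (ρ : Fin k)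
    (h : ¬ Part (dec ν ρ)) : (MM (dec ν ρ) μ x ρ).det = 0 := by
  by_cases h1 : (ρ : ℕ) + 1 < k
  · let ρ' : Fin k := ⟨ρ + 1, h1⟩
    have hne : ρ' ≠ ρ := fun e => by have := congrArg Fin.val e; simp [ρ'] at this
    have h2 : ν ρ' = ν ρ := by
      by_contra hc
      have h3 : ν ρ' ≤ ν ρ - 1 := by
        have := hν.1 (show ρ ≤ ρ' from Fin.le_def.2 (Nat.le_succ _))
        omega
      apply h
      constructor
      · intro i j hij
        by_cases hi : i = ρ <;> by_cases hj : j = ρ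
        · rw [hi, hj]
        · rw [hi, dec_self, dec_ne ν hj]
          have : ρ' ≤ j := by
            rw [hi] at hij
            have h4 : (ρ : ℕ) ≤ j := hij
            have h5 : (j : ℕ) ≠ ρ := fun e => hj (Fin.ext e)
            exact Fin.le_def.2 (by simp only [ρ']; omega)
          exact (hν.1 this).trans h3
        · rw [hj, dec_self, dec_ne ν hi]
          have := hν.1 hij
          rw [hj] at this
          omega
        · rw [dec_ne ν hi, dec_ne ν hj]; exact hν.1 hij
      · intro i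
        by_cases hi : i = ρ
        · rw [hi, dec_self]; exact (hν.2 ρ').trans h3
        · rw [dec_ne ν hi]; exact hν.2 i
    apply Matrix.det_zero_of_row_eq hne
    ext j
    simp only [MM, Matrix.of_apply, lt_irrefl, if_false, dec_self, dec_ne ν hne, h2, ρ']
    rw [if_neg (by omega)]
    congr 1
    push_cast
    ring
  · have h2 : ν ρ = 0 := by
      by_contra hc
      have h3 := hν.2 ρ
      apply h
      constructor
      · intro i j hij
        by_cases hi : i = ρ <;> by_cases hj : j = ρ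
        · rw [hi, hj]
        · exfalso
          rw [hi] at hij
          have h4 : (ρ : ℕ) ≤ j := hij
          have h5 : (j : ℕ) ≠ ρ := fun e => hj (Fin.ext e)
          have := j.2
          omega
        · rw [hj, dec_self, dec_ne ν hi]
          have := hν.1 hij
          rw [hj] at this
          omega
        · rw [dec_ne ν hi, dec_ne ν hj]; exact hν.1 hij
      · intro i
        by_cases hi : i = ρ
        · rw [hi, dec_self]; omega
        · rw [dec_ne ν hi]; exact hν.2 i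
    apply Matrix.det_eq_zero_of_row_eq_zero ρ
    intro j
    simp only [MM, Matrix.of_apply, lt_irrefl, if_false, dec_self, h2]
    apply hZ_neg
    have := j.2
    omega

theorem SS_single_row (L : ℕ) (x : R) :
    SS (Fin.cons (L : ℤ) (0 : Fin k → ℤ) : Fin (k + 1) → ℤ) (x ::ₘ 0) = x ^ L := by
  rw [SS, Matrix.det_of_isUpperTriangular, Fin.prod_univ_succ]
  · simp only [Matrix.of_apply, Fin.cons_zero, Fin.cons_succ, Pi.zero_apply, sub_add_cancel,
      hZ_singleton]
    have : hZ ({x} : Multiset R) 0 = 1 := by simpa using hZ_singleton x 0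
    simp [this]
  · intro i j hij
    have hij' : (j : ℕ) < i := hij
    rcases Fin.eq_zero_or_eq_succ i with rfl | ⟨i', rfl⟩
    · simp at hij'
    · simp only [Matrix.of_apply, Fin.cons_succ, Pi.zero_apply]
      apply hZ_neg
      omega

theorem SS_two_rows (ν : Fin (k + 2) → ℤ) (h0 : ν 1 ≤ ν 0) (h1 : 1 ≤ ν 1) (x : R) :
    SS ν (x ::ₘ 0) = 0 := by
  let A : Matrix (Fin (k + 2)) (Fin (k + 2)) R :=
    Matrix.of fun i j => hZ (x ::ₘ 0) (ν i - (i : ℕ) + (j : ℕ))
  have e : A = A.updateRow 0 (x ^ (ν 0 - ν 1 + 1).toNat • A 1) := by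
    ext i j
    rw [Matrix.updateRow_apply]
    split_ifs with h
    · subst h
      obtain ⟨a, ha⟩ : ∃ a : ℕ, ν 0 - ν 1 + 1 = a := ⟨(ν 0 - ν 1 + 1).toNat, by omega⟩
      obtain ⟨b, hb⟩ : ∃ b : ℕ, ν 1 - 1 = b := ⟨(ν 1 - 1).toNat, by omega⟩
      have e1 : ν 0 - ((0 : Fin (k + 2)) : ℕ) + (j : ℕ) = ((a + (b + j) : ℕ) : ℤ) := by
        simp only [Fin.val_zero]; push_cast; omega
      have e2 : ν 1 - ((1 : Fin (k + 2)) : ℕ) + (j : ℕ) = ((b + j : ℕ) : ℤ) := by
        simp only [Fin.val_one]; push_cast; omega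
      simp only [A, Matrix.of_apply, Pi.smul_apply, smul_eq_mul, e1, e2, ha, hZ_singleton,
        Int.toNat_natCast, pow_add]
    · rfl
  change A.det = 0
  rw [e, Matrix.det_updateRow_smul, Matrix.det_updateRow_eq_zero (by simp), mul_zero]

end Pool.Agent.MP_8b9287_co
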