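import Pool.Agent.MP_8b9287_co.Comb

/-! Evaluation of the hyperplane contributions by Lagrange interpolation. -/

open Finset

namespace Pool.Agent.MP_8b9287_co

variable {α : Type} [DecidableEq α] {t : α → ℚ}

/-- divided difference -/
def DD (t : α → ℚ) (Y : Finset α) (a : α) (g : α → ℚ) : ℚ :=
  g a * ∏ y ∈ Y, (t a - t y)⁻¹ -
    ∑ b ∈ Y, g b * ((t a - t b)⁻¹ * ∏ z ∈ Y.erase b, (t b - t z)⁻¹)

theorem DD_sum {ι : Type} (s : Finset ι) (Y : Finset α) (a : α) (g : ι → α → ℚ) :
    DD t Y a (fun b => ∑ i ∈ s, g i b) = ∑ i ∈ s, DD t Y a (g i) := by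
  simp only [DD, Finset.sum_sub_distrib, Finset.sum_mul]
  rw [Finset.sum_comm]

theorem DD_mul (c : ℚ) (Y : Finset α) (a : α) (g : α → ℚ) :
    DD t Y a (fun b => c * g b) = c * DD t Y a g := by
  simp only [DD, mul_sub, Finset.mul_sum, mul_assoc]

open Polynomial in
theorem DD_poly (ht : Function.Injective t) (Y : Finset α) {a : α} (ha : a ∉ Y) (φ : ℚ[X]) :
    DD t Y a (fun b => φ.eval (t b)) = (φ /ₘ Lagrange.nodal Y t).eval (t a) := by
  have hd := degree_modByMonic_lt φ (Lagrange.nodal_monic (s := Y) (v := t))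
  rw [Lagrange.degree_nodal] at hd
  have h := Lagrange.coeff_eq_sum (s := insert a Y) (v := t) ht.injOn
    (P := φ %ₘ Lagrange.nodal Y t)
    (by rw [card_insert_of_notMem ha]; exact hd.trans (by exact_mod_cast Nat.lt_succ_self _))
  rw [card_insert_of_notMem ha, Nat.add_sub_cancel, coeff_eq_zero_of_degree_lt hd,
    sum_insert ha, erase_insert ha, modByMonic_eq_sub_mul_div] at h
  have h2 : ∑ b ∈ Y, eval (t b) (φ - Lagrange.nodal Y t * (φ /ₘ Lagrange.nodal Y t)) /
      ∏ j ∈ (insert a Y).erase b, (t b - t j) =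
      - ∑ b ∈ Y, φ.eval (t b) * ((t a - t b)⁻¹ * ∏ z ∈ Y.erase b, (t b - t z)⁻¹) := by
    rw [← Finset.sum_neg_distrib]
    apply Finset.sum_congr rfl
    intro b hb
    have hab : a ≠ b := fun e => ha (e ▸ hb)
    rw [erase_insert_of_ne hab, prod_insert (fun h => ha (mem_of_mem_erase h)), eval_sub, eval_mul,
      Lagrange.eval_nodal_at_node hb, zero_mul, sub_zero, prod_inv_distrib, div_eq_mul_inv, mul_inv,
      ← neg_sub (t a), inv_neg]
    ring
  have h3 : ∏ y ∈ Y, (t a - t y) ≠ 0 :=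
    prod_ne_zero_iff.2 fun y hy => sub_ne_zero.2 fun e => ha (ht e ▸ hy)
  rw [h2, eval_sub, eval_mul, Lagrange.eval_nodal, sub_div, mul_div_cancel_left₀ _ h3] at h
  rw [DD, prod_inv_distrib, ← div_eq_mul_inv]
  linarith

/-- the interpolation functional -/
def Lam (t : α → ℚ) (H Y : Finset α) (P : α → α → ℚ) : ℚ :=
  ∑ a ∈ H, (∏ y ∈ H.erase a, (t a - t y)⁻¹) * DD t Y a (P a)

open Polynomial in
theorem Lam_mono (ht : Function.Injective t) {H Y : Finset α} (hH : H.Nonempty) (hd : Disjoint H Y)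
    (p q : ℕ) (hpq : p + q + 1 ≤ H.card + Y.card) (c : ℚ) :
    Lam t H Y (fun a b => c * t a ^ p * t b ^ q) =
      if p + q + 1 = H.card + Y.card ∧ Y.card ≤ q then c else 0 := by
  let Q : ℚ[X] := X ^ q /ₘ Lagrange.nodal Y t
  have h1 : Lam t H Y (fun a b => c * t a ^ p * t b ^ q) =
      c * ∑ a ∈ H, (X ^ p * Q).eval (t a) / ∏ y ∈ H.erase a, (t a - t y) := by
    rw [Lam, Finset.mul_sum]
    apply Finset.sum_congr rfl
    intro a ha
    have := DD_poly ht Y (disjoint_left.1 hd ha) (X ^ q)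
    simp only [eval_pow, eval_X] at this
    rw [DD_mul, this, prod_inv_distrib, eval_mul, eval_pow, eval_X, div_eq_mul_inv]
    ring
  rw [h1]
  have hc := card_pos.2 hH
  by_cases hq : Y.card ≤ q
  · have hm : Q.Monic := by
      rw [Monic, leadingCoeff_divByMonic_of_monic Lagrange.nodal_monic
        (by rw [Lagrange.degree_nodal, degree_X_pow]; exact_mod_cast hq), leadingCoeff_X_pow]
    have hn : (X ^ p * Q).natDegree = p + (q - Y.card) := by
      rw [(monic_X_pow p).natDegree_mul hm, natDegree_divByMonic _ Lagrange.nodal_monic,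
        Lagrange.natDegree_nodal, natDegree_X_pow, natDegree_X_pow]
    have hm2 := (monic_X_pow p).mul hm
    rw [← Lagrange.coeff_eq_sum ht.injOn (by
      rw [degree_eq_natDegree hm2.ne_zero, hn]; exact_mod_cast (by omega))]
    by_cases h : p + q + 1 = H.card + Y.card
    · rw [if_pos ⟨h, hq⟩, show H.card - 1 = (X ^ p * Q).natDegree by omega, hm2.coeff_natDegree,
        mul_one]
    · rw [if_neg (fun h' => h h'.1), coeff_eq_zero_of_natDegree_lt (by omega), mul_zero]
  · have : Q = 0 := by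
      rw [divByMonic_eq_zero_iff Lagrange.nodal_monic, Lagrange.degree_nodal, degree_X_pow]
      exact_mod_cast (by omega)
    rw [if_neg (fun h' => hq h'.2), this]
    simp

theorem Lam_sum {ι : Type} (s : Finset ι) (H Y : Finset α) (P : ι → α → α → ℚ) :
    Lam t H Y (fun a b => ∑ i ∈ s, P i a b) = ∑ i ∈ s, Lam t H Y (P i) := by
  simp only [Lam, DD_sum, Finset.mul_sum]
  rw [Finset.sum_comm]

open MvPolynomial in
theorem Lam_hom (ht : Function.Injective t) {H Y : Finset α} (hH : H.Nonempty) (hd : Disjoint H Y)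
    (N : ℕ) (hN : N + 1 = H.card + Y.card) (P : MvPolynomial (Fin 3) ℚ) (hP : P.IsHomogeneous N) :
    Lam t H Y (fun a b => eval ![1, t a, t b] P) =
      tau Y.card (aeval ![0, 1, Polynomial.X] P) := by
  conv_lhs => rw [P.as_sum]
  conv_rhs => rw [P.as_sum]
  simp only [map_sum]
  rw [Lam_sum]
  apply Finset.sum_congr rfl
  intro d hd'
  have h1 : d 0 + d 1 + d 2 = N := by
    by_contra hc
    apply mem_support_iff.1 hd'
    apply hP.coeff_eq_zero
    rwa [Finsupp.degree_eq_sum, Fin.sum_univ_three]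
  simp only [eval_monomial, aeval_monomial, Finsupp.prod_fintype _ _ (fun _ => pow_zero _),
    Fin.prod_univ_three, Matrix.cons_val_zero, Matrix.cons_val_one, Matrix.cons_val, one_pow,
    one_mul, mul_one, ← mul_assoc]
  rw [Lam_mono ht hH hd _ _ (by omega)]
  by_cases h0 : d 0 = 0
  · rw [h0, pow_zero, mul_one, Polynomial.algebraMap_apply, Polynomial.C_mul_X_pow_eq_monomial,
      tau_monomial]
    have : d 1 + d 2 + 1 = H.card + Y.card := by omega
    simp [this]
  · rw [if_neg (by omega), zero_pow h0]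
    simp

open MvPolynomial in
theorem hZ_hom {σ : Type} (μ : Multiset (MvPolynomial σ ℚ)) (hμ : ∀ x ∈ μ, x.IsHomogeneous 1)
    (m : ℕ) : (hZ μ m).IsHomogeneous m := by
  induction μ using Multiset.induction_on generalizing m with
  | empty =>
    simp only [hZ, Hs, Multiset.map_zero, Multiset.prod_zero, Nat.cast_nonneg, if_true,
      Int.toNat_natCast, PowerSeries.coeff_one]
    split_ifs with h
    · rw [h]; exact isHomogeneous_one _ _
    · exact isHomogeneous_zero _ _ _
  | cons x μ ih =>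
    have ih' := ih fun y hy => hμ y (Multiset.mem_cons_of_mem hy)
    induction m with
    | zero =>
      rw [hZ_cons, hZ_neg (x ::ₘ μ) (by omega), mul_zero, add_zero]
      exact ih' 0
    | succ m ihm =>
      rw [hZ_cons, show ((m + 1 : ℕ) : ℤ) - 1 = m by push_cast; ring]
      refine (ih' _).add ?_
      rw [add_comm]
      exact (hμ x (Multiset.mem_cons_self _ _)).mul ihm

open MvPolynomial in
theorem SS_hom {σ : Type} {k : ℕ} (ν : Fin k → ℤ) (N : ℕ) (hν : ∑ i, ν i = N)
    (μ : Multiset (MvPolynomial σ ℚ)) (hμ : ∀ x ∈ μ, x.IsHomogeneous 1) :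
    (SS ν μ).IsHomogeneous N := by
  rw [SS, Matrix.det_apply']
  apply IsHomogeneous.sum
  intro π _
  rw [← map_intCast (C : ℚ →+* MvPolynomial σ ℚ)]
  apply IsHomogeneous.C_mul
  simp only [Matrix.of_apply]
  by_cases h : ∀ i, 0 ≤ ν (π i) - ((π i : Fin k) : ℕ) + (i : ℕ)
  · have h1 : N = ∑ i, (ν (π i) - ((π i : Fin k) : ℕ) + (i : ℕ)).toNat := by
      have : ((∑ i, (ν (π i) - ((π i : Fin k) : ℕ) + (i : ℕ)).toNat : ℕ) : ℤ) = N := by
        push_cast
        rw [Finset.sum_congr rfl fun i _ => Int.toNat_of_nonneg (h i), Finset.sum_add_distrib,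
          Finset.sum_sub_distrib, Equiv.sum_comp π ν,
          Equiv.sum_comp π (fun i : Fin k => ((i : ℕ) : ℤ)), hν]
        ring
      exact_mod_cast this.symm
    rw [h1]
    apply IsHomogeneous.prod
    intro i _
    have := hZ_hom μ hμ (ν (π i) - ((π i : Fin k) : ℕ) + (i : ℕ)).toNat
    rwa [Int.toNat_of_nonneg (h i)] at this
  · push Not at h
    obtain ⟨i, hi⟩ := h
    rw [Finset.prod_eq_zero (mem_univ i) (hZ_neg _ hi)]
    exact isHomogeneous_zero _ _ _

theorem sum_pc_insert {a : α} {s : Finset α} (ha : a ∉ s) (j : ℕ) (G : Finset α → ℚ) :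
    ∑ J ∈ powersetCard (j + 1) (insert a s), G J =
      ∑ I ∈ powersetCard (j + 1) s, G I + ∑ I ∈ powersetCard j s, G (insert a I) := by
  rw [powersetCard_succ_insert ha, sum_union, sum_image]
  · intro I hI J hJ h
    have h1 : a ∉ I := fun h => ha ((mem_powersetCard.1 hI).1 h)
    have h2 : a ∉ J := fun h => ha ((mem_powersetCard.1 hJ).1 h)
    rw [← erase_insert h1, h, erase_insert h2]
  · rw [disjoint_left]
    intro I hI hI'
    obtain ⟨J, -, rfl⟩ := mem_image.1 hI'
    exact ha ((mem_powersetCard.1 hI).1 (mem_insert_self _ _))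

theorem incl_excl {H : Finset α} {a : α} (ha : a ∈ H) (j : ℕ) (G : Multiset ℚ → ℚ) :
    ∑ I ∈ powersetCard j (H.erase a), G (I.val.map t) = ∑ i ∈ range (j + 1), (-1) ^ i *
      ∑ J ∈ powersetCard (j - i) H, G (Multiset.replicate i (t a) + J.val.map t) := by
  induction j generalizing G with
  | zero => simp
  | succ j ih =>
    have h := sum_pc_insert (notMem_erase a H) j (fun I => G (I.val.map t))
    rw [insert_erase ha] at h
    have h2 : ∑ I ∈ powersetCard j (H.erase a), G ((insert a I).val.map t) =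
        ∑ I ∈ powersetCard j (H.erase a), G (t a ::ₘ I.val.map t) := by
      apply Finset.sum_congr rfl
      intro I hI
      have h1 : a ∉ I := fun h => notMem_erase a H ((mem_powersetCard.1 hI).1 h)
      rw [insert_val_of_notMem h1, Multiset.map_cons]
    rw [h2, ih (fun m => G (t a ::ₘ m))] at h
    rw [sum_range_succ']
    simp only [Nat.add_sub_add_right, pow_zero, one_mul, Nat.sub_zero, Multiset.replicate_zero,
      zero_add, Multiset.replicate_succ, Multiset.cons_add, pow_succ, mul_neg_one, neg_mul,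
      Finset.sum_neg_distrib]
    linarith

/-- the contribution of a flat -/
noncomputable def CH {k : ℕ} (t : α → ℚ) (ν : Fin k → ℤ) (κ : ℕ) (H Y : Finset α) : ℚ :=
  (-1) ^ κ * ∑ a ∈ H, (∏ y ∈ H.erase a, (t a - t y)⁻¹) *
    ∑ I ∈ powersetCard κ (H.erase a), DD t Y a (fun b => SS ν (t b ::ₘ I.val.map t))

open MvPolynomial in
theorem CH_eq {k : ℕ} (ht : Function.Injective t) (ν : Fin k → ℤ) (N : ℕ) (hν : ∑ i, ν i = N)
    (κ : ℕ) {H Y : Finset α} (hH : H.Nonempty) (hd : Disjoint H Y)
    (hN : N + 1 = H.card + Y.card) :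
    CH t ν κ H Y = ∑ i ∈ range (κ + 1), (-1) ^ (κ - i) * (H.card.choose (κ - i) : ℚ) *
      cc Y.card ν i := by
  have h1 : ∀ a ∈ H, (∏ y ∈ H.erase a, (t a - t y)⁻¹) *
      ∑ I ∈ powersetCard κ (H.erase a), DD t Y a (fun b => SS ν (t b ::ₘ I.val.map t)) =
      ∑ i ∈ range (κ + 1), (-1) ^ i * ∑ J ∈ powersetCard (κ - i) H,
        (∏ y ∈ H.erase a, (t a - t y)⁻¹) * DD t Y a
          (fun b => SS ν (t b ::ₘ (Multiset.replicate i (t a) + J.val.map t))) := by
    intro a ha
    rw [incl_excl ha κ (fun m => DD t Y a (fun b => SS ν (t b ::ₘ m))), Finset.mul_sum]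
    apply Finset.sum_congr rfl
    intro i _
    rw [← Finset.mul_sum]
    ring
  rw [CH, Finset.sum_congr rfl h1, Finset.sum_comm, Finset.mul_sum]
  apply Finset.sum_congr rfl
  intro i hi
  rw [← Finset.mul_sum, Finset.sum_comm]
  have h2 : ∀ J ∈ powersetCard (κ - i) H, ∑ a ∈ H, (∏ y ∈ H.erase a, (t a - t y)⁻¹) * DD t Y a
      (fun b => SS ν (t b ::ₘ (Multiset.replicate i (t a) + J.val.map t))) = cc Y.card ν i := by
    intro J _
    let P : MvPolynomial (Fin 3) ℚ :=
      SS ν (X 2 ::ₘ (Multiset.replicate i (X 1) + J.val.map fun j => C (t j) * X 0))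
    have hP : P.IsHomogeneous N := by
      apply SS_hom ν N hν
      intro x hx
      simp only [Multiset.mem_cons, Multiset.mem_add, Multiset.mem_replicate,
        Multiset.mem_map] at hx
      rcases hx with rfl | ⟨-, rfl⟩ | ⟨j, -, rfl⟩
      · exact isHomogeneous_X _ _
      · exact isHomogeneous_X _ _
      · exact isHomogeneous_C_mul_X _ _
    have h3 := Lam_hom ht hH hd N hN P hP
    have h4 : ∀ a b, eval ![1, t a, t b] P =
        SS ν (t b ::ₘ (Multiset.replicate i (t a) + J.val.map t)) := by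
      intro a b
      simp [P, map_SS]
    have h5 : aeval ![0, 1, (Polynomial.X : Polynomial ℚ)] P =
        SS ν (Polynomial.X ::ₘ Multiset.replicate i 1) := by
      rw [← SS_replicate_zero ν J.card]
      have := map_SS (aeval ![0, 1, (Polynomial.X : Polynomial ℚ)] :
        MvPolynomial (Fin 3) ℚ →ₐ[ℚ] Polynomial ℚ).toRingHom ν
        (X 2 ::ₘ (Multiset.replicate i (X 1) + J.val.map fun j => C (t j) * X 0))
      refine this.trans ?_
      congr 1
      simp [add_comm]
    simp only [h4, h5] at h3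
    exact h3
  rw [Finset.sum_congr rfl h2, sum_const, card_powersetCard, nsmul_eq_mul]
  have h3 : (-1 : ℚ) ^ κ * (-1) ^ i = (-1) ^ (κ - i) := by
    have := mem_range.1 hi
    rw [show κ = (κ - i) + i by omega, pow_add, mul_assoc, ← mul_pow, Nat.add_sub_cancel]
    simp
  rw [← h3]
  ring

end Pool.Agent.MP_8b9287_co
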