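import Mathlib

/-! Sums over orderings of a finite set. -/

open Finset

namespace Pool.Agent.MP_8b9287_co

variable {α : Type} [DecidableEq α]

/-- all orderings of `X` -/
noncomputable def ords (X : Finset α) : Finset (List α) := X.toList.permutations.toFinset

theorem mem_ords {X : Finset α} {l : List α} : l ∈ ords X ↔ l.Nodup ∧ l.toFinset = X := by
  rw [ords, List.mem_toFinset, List.mem_permutations]
  constructor
  · intro h
    exact ⟨h.nodup_iff.2 X.nodup_toList, by rw [List.toFinset_eq_of_perm _ _ h, toList_toFinset]⟩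
  · rintro ⟨h1, rfl⟩
    exact (List.toFinset_toList h1).symm

theorem length_of_mem_ords {X : Finset α} {l : List α} (h : l ∈ ords X) : l.length = X.card := by
  obtain ⟨h1, rfl⟩ := mem_ords.1 h
  exact (List.toFinset_card_of_nodup h1).symm

theorem ords_empty : ords (∅ : Finset α) = {[]} := by
  ext l
  simp only [mem_ords, List.toFinset_eq_empty_iff, mem_singleton]
  exact ⟨fun h => h.2, fun h => by simp [h]⟩

theorem sum_ords_split (X : Finset α) (j : ℕ) (hj : j ≤ X.card) (F : List α → ℚ) :
    ∑ l ∈ ords X, F l =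
      ∑ I ∈ powersetCard j X, ∑ u ∈ ords I, ∑ v ∈ ords (X \ I), F (u ++ v) := by
  simp only [← Finset.sum_product']
  rw [Finset.sum_sigma']
  apply Finset.sum_nbij' (fun l => ⟨(l.take j).toFinset, (l.take j, l.drop j)⟩)
    (fun p => p.2.1 ++ p.2.2)
  · intro l hl
    have hlen := length_of_mem_ords hl
    obtain ⟨h1, rfl⟩ := mem_ords.1 hl
    have h2 : (l.take j ++ l.drop j).Nodup := by rwa [List.take_append_drop]
    rw [List.nodup_append] at h2
    simp only [mem_sigma, mem_powersetCard, mem_product, mem_ords]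
    refine ⟨⟨fun x hx => ?_, ?_⟩, ⟨h2.1, trivial⟩, h2.2.1, ?_⟩
    · simp only [List.mem_toFinset] at hx ⊢
      exact List.mem_of_mem_take hx
    · rw [List.toFinset_card_of_nodup h2.1, List.length_take]; omega
    · ext x
      simp only [List.mem_toFinset, mem_sdiff]
      constructor
      · intro hx
        exact ⟨List.mem_of_mem_drop hx, fun h => h2.2.2 x h x hx rfl⟩
      · rintro ⟨hx, hx'⟩
        rw [← List.take_append_drop j l, List.mem_append] at hx
        exact hx.resolve_left hx'
  · rintro ⟨I, u, v⟩ hp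
    simp only [mem_sigma, mem_powersetCard, mem_product, mem_ords] at hp
    obtain ⟨⟨h1, -⟩, ⟨h2, h3⟩, h4, h5⟩ := hp
    rw [mem_ords, List.nodup_append, List.toFinset_append, h3, h5]
    refine ⟨⟨h2, h4, ?_⟩, union_sdiff_of_subset h1⟩
    rintro a ha b hb rfl
    rw [← List.mem_toFinset] at ha hb
    rw [h3] at ha
    rw [h5] at hb
    exact (mem_sdiff.1 hb).2 ha
  · intro l _
    simp
  · rintro ⟨I, u, v⟩ hp
    simp only [mem_sigma, mem_powersetCard, mem_product] at hp
    obtain ⟨⟨-, h1⟩, h2, -⟩ := hp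
    have h3 : u.length = j := by rw [length_of_mem_ords h2, h1]
    subst h3
    simp [(mem_ords.1 h2).2]
  · intro l _
    simp

theorem ords_singleton (a : α) : ords ({a} : Finset α) = {[a]} := by
  ext l
  rw [mem_singleton]
  constructor
  · intro h
    have h1 := length_of_mem_ords h
    obtain ⟨b, rfl⟩ := List.length_eq_one_iff.1 (h1.trans (card_singleton a))
    have := (mem_ords.1 h).2
    simp at this
    rw [this]
  · rintro rfl
    simp [mem_ords]

theorem sum_ords_cons (X : Finset α) (hX : X.Nonempty) (F : List α → ℚ) :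
    ∑ l ∈ ords X, F l = ∑ b ∈ X, ∑ l ∈ ords (X.erase b), F (b :: l) := by
  rw [sum_ords_split X 1 (card_pos.2 hX), powersetCard_one, sum_map]
  apply Finset.sum_congr rfl
  intro b _
  simp [ords_singleton, sdiff_singleton_eq_erase]

theorem sum_ords_snoc (X : Finset α) (hX : X.Nonempty) (F : List α → ℚ) :
    ∑ l ∈ ords X, F l = ∑ b ∈ X, ∑ l ∈ ords (X.erase b), F (l ++ [b]) := by
  rw [sum_ords_split X (X.card - 1) (by omega)]
  symm
  apply Finset.sum_bij (fun b _ => X.erase b)
  · intro b hb
    exact mem_powersetCard.2 ⟨erase_subset _ _, card_erase_of_mem hb⟩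
  · intro a ha b hb h
    exact erase_injOn X ha hb h
  · intro I hI
    obtain ⟨h1, h2⟩ := mem_powersetCard.1 hI
    have h3 : (X \ I).card = 1 := by
      rw [card_sdiff_of_subset h1, h2]; have := card_pos.2 hX; omega
    obtain ⟨b, hb⟩ := card_eq_one.1 h3
    have hb' : b ∈ X \ I := by rw [hb]; exact mem_singleton_self b
    refine ⟨b, (mem_sdiff.1 hb').1, ?_⟩
    rw [← sdiff_singleton_eq_erase, ← hb, Finset.sdiff_sdiff_eq_self h1]
  · intro b hb
    rw [sdiff_erase_self hb, ords_singleton]
    simp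

variable (t : α → ℚ)

/-- the weight of an ordering -/
def wt : List α → ℚ
  | [] => 1
  | [_] => 1
  | a :: b :: l => (t a - t b)⁻¹ * wt (b :: l)

omit [DecidableEq α] in
theorem wt_append (u : List α) (a : α) (r : List α) :
    wt t (u ++ a :: r) = wt t (u ++ [a]) * wt t (a :: r) := by
  induction u with
  | nil => simp [wt]
  | cons x u ih =>
    cases u with
    | nil => simp [wt]
    | cons y u =>
      simp only [List.cons_append, wt] at ih ⊢
      rw [ih, mul_assoc]

variable {t}

theorem partial_frac (ht : Function.Injective t) {X : Finset α} (hX : X.Nonempty) {a : α}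
    (ha : a ∉ X) :
    ∑ b ∈ X, (t a - t b)⁻¹ * ∏ y ∈ X.erase b, (t b - t y)⁻¹ = ∏ y ∈ X, (t a - t y)⁻¹ := by
  have h := Lagrange.coeff_eq_sum (s := insert a X) (v := t) ht.injOn (P := 1)
    (by rw [Polynomial.degree_one, card_insert_of_notMem ha]; exact_mod_cast Nat.succ_pos _)
  rw [card_insert_of_notMem ha, Nat.add_sub_cancel, Polynomial.coeff_one,
    if_neg (card_pos.2 hX).ne', sum_insert ha, erase_insert ha] at h
  simp only [Polynomial.eval_one, one_div] at h
  rw [prod_inv_distrib, eq_neg_of_add_eq_zero_left h.symm, ← Finset.sum_neg_distrib]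
  apply Finset.sum_congr rfl
  intro b hb
  have hab : a ≠ b := fun e => ha (e ▸ hb)
  rw [erase_insert_of_ne hab, prod_insert (fun h => ha (mem_of_mem_erase h)), prod_inv_distrib,
    mul_inv, ← neg_mul, ← inv_neg, neg_sub]

theorem star_sum (ht : Function.Injective t) (X : Finset α) {a : α} (ha : a ∉ X) :
    ∑ l ∈ ords X, wt t (a :: l) = ∏ y ∈ X, (t a - t y)⁻¹ := by
  induction X using Finset.strongInduction generalizing a with
  | H X ih =>
    rcases X.eq_empty_or_nonempty with rfl | hX
    · simp [ords_empty, wt]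
    · rw [sum_ords_cons X hX, ← partial_frac ht hX ha]
      apply Finset.sum_congr rfl
      intro b hb
      simp only [wt]
      rw [← Finset.mul_sum, ih _ (erase_ssubset hb) (notMem_erase b X)]

theorem star_sum' (ht : Function.Injective t) (X : Finset α) {a : α} (ha : a ∉ X) :
    ∑ l ∈ ords X, wt t (l ++ [a]) = ∏ y ∈ X, (t y - t a)⁻¹ := by
  induction X using Finset.strongInduction generalizing a with
  | H X ih =>
    rcases X.eq_empty_or_nonempty with rfl | hX
    · simp [ords_empty, wt]
    · have h := partial_frac (t := fun x => - t x) (neg_injective.comp ht) hX ha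
      simp only [neg_sub_neg] at h
      rw [sum_ords_snoc X hX, ← h]
      apply Finset.sum_congr rfl
      intro b hb
      have : ∀ l : List α, wt t (l ++ [b] ++ [a]) = (t b - t a)⁻¹ * wt t (l ++ [b]) := by
        intro l
        rw [List.append_assoc, List.singleton_append, wt_append]
        simp [wt, mul_comm]
      simp only [this]
      rw [← Finset.mul_sum, ih _ (erase_ssubset hb) (notMem_erase b X)]

/-- first entry lying in `Y` -/
def fo (Y : Finset α) (d : α) : List α → α
  | [] => d
  | c :: l => if c ∈ Y then c else fo Y d l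

theorem tree_sum (ht : Function.Injective t) (Y : Finset α) (hY : Y.Nonempty) (d : α) (g : α → ℚ)
    (X : Finset α) (hYX : Y ⊆ X) {a : α} (ha : a ∉ X) :
    ∑ l ∈ ords X, wt t (a :: l) * g (fo Y d l) = (∏ y ∈ X \ Y, (t a - t y)⁻¹) *
      ∑ b ∈ Y, g b * ((t a - t b)⁻¹ * ∏ z ∈ Y.erase b, (t b - t z)⁻¹) := by
  induction X using Finset.strongInduction generalizing a with
  | H X ih =>
    have hX : X.Nonempty := hY.mono hYX
    rw [sum_ords_cons X hX, ← sum_sdiff hYX]
    have e1 : ∀ c ∈ X \ Y, ∑ l ∈ ords (X.erase c), wt t (a :: c :: l) * g (fo Y d (c :: l)) =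
        ∑ b ∈ Y, (g b * ∏ z ∈ Y.erase b, (t b - t z)⁻¹) * ((t a - t c)⁻¹ *
          ((t c - t b)⁻¹ * ∏ y ∈ (X \ Y).erase c, (t c - t y)⁻¹)) := by
      intro c hc
      obtain ⟨h1, h2⟩ := mem_sdiff.1 hc
      simp only [wt, fo, if_neg h2, mul_assoc]
      rw [← Finset.mul_sum, ih _ (erase_ssubset h1)
        (fun y hy => mem_erase.2 ⟨fun e => h2 (e ▸ hy), hYX hy⟩) (notMem_erase c X),
        erase_sdiff_comm, Finset.mul_sum, Finset.mul_sum]
      exact Finset.sum_congr rfl fun b _ => by ring
    have e2 : ∀ c ∈ Y, ∑ l ∈ ords (X.erase c), wt t (a :: c :: l) * g (fo Y d (c :: l)) =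
        (g c * ∏ z ∈ Y.erase c, (t c - t z)⁻¹) * ((t a - t c)⁻¹ *
          ∏ y ∈ X \ Y, (t c - t y)⁻¹) := by
      intro c hc
      simp only [wt, fo, if_pos hc]
      rw [← Finset.sum_mul, ← Finset.mul_sum, star_sum ht _ (notMem_erase c X),
        ← prod_sdiff (erase_subset_erase c hYX)]
      have : X.erase c \ Y.erase c = X \ Y := by
        ext x
        simp only [mem_sdiff, mem_erase]
        constructor
        · rintro ⟨⟨h1, h2⟩, h3⟩
          exact ⟨h2, fun h => h3 ⟨h1, h⟩⟩
        · rintro ⟨h1, h2⟩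
          exact ⟨⟨fun e => h2 (e ▸ hc), h1⟩, fun h => h2 h.2⟩
      rw [this]; ring
    rw [Finset.sum_congr rfl e1, Finset.sum_congr rfl e2, Finset.sum_comm, ← sum_add_distrib,
      Finset.mul_sum]
    apply Finset.sum_congr rfl
    intro b hb
    have hb' : b ∉ X \ Y := fun h => (mem_sdiff.1 h).2 hb
    have h := partial_frac ht (X := insert b (X \ Y)) (insert_nonempty _ _) (a := a) (by
      rw [mem_insert, not_or]
      exact ⟨fun e => ha (e ▸ hYX hb), fun h => ha (mem_sdiff.1 h).1⟩)
    rw [sum_insert hb', prod_insert hb', erase_insert hb'] at h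
    have e3 : ∑ c ∈ X \ Y, (t a - t c)⁻¹ * ∏ y ∈ (insert b (X \ Y)).erase c, (t c - t y)⁻¹ =
        ∑ c ∈ X \ Y, (t a - t c)⁻¹ * ((t c - t b)⁻¹ * ∏ y ∈ (X \ Y).erase c, (t c - t y)⁻¹) := by
      apply Finset.sum_congr rfl
      intro c hc
      rw [erase_insert_of_ne (fun e : b = c => hb' (e ▸ hc)),
        prod_insert (fun h => hb' (mem_of_mem_erase h))]
    rw [e3] at h
    rw [← Finset.mul_sum, ← mul_add, add_comm, h]
    ring

omit [DecidableEq α] in
theorem wt_ofFn (t : α → ℚ) (N : ℕ) (f : Fin (N + 1) → α) :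
    wt t (List.ofFn f) = (∏ i : Fin N, (t (f i.castSucc) - t (f i.succ)))⁻¹ := by
  induction N with
  | zero => simp [wt]
  | succ N ih =>
    have := ih (fun i => f i.succ)
    rw [List.ofFn_succ] at this
    rw [List.ofFn_succ, List.ofFn_succ, wt, this, Fin.prod_univ_succ, mul_inv]
    rfl

theorem sum_perm_eq {n : ℕ} (F : List (Fin n) → ℚ) :
    ∑ σ : Equiv.Perm (Fin n), F (List.ofFn σ) = ∑ l ∈ ords univ, F l := by
  apply Finset.sum_bij (fun (σ : Equiv.Perm (Fin n)) _ => List.ofFn σ)
  · intro σ _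
    rw [mem_ords]
    refine ⟨List.nodup_ofFn.2 σ.injective, ?_⟩
    ext x
    simp only [List.mem_toFinset, List.mem_ofFn, mem_univ, iff_true]
    exact σ.surjective x
  · intro σ _ τ _ h
    exact Equiv.coe_fn_injective (List.ofFn_injective h)
  · intro l hl
    have h1 : l.length = n := by simpa using length_of_mem_ords hl
    have h2 : Function.Injective l.get := List.nodup_iff_injective_get.1 (mem_ords.1 hl).1
    have h3 : Function.Injective (fun i : Fin n => l.get (Fin.cast h1.symm i)) :=
      h2.comp (Fin.cast_injective _)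
    refine ⟨Equiv.ofBijective _ (Finite.injective_iff_bijective.1 h3), mem_univ _, ?_⟩
    apply List.ext_get (by simp [h1])
    intro i _ _
    simp
  · intro σ _
    rfl

end Pool.Agent.MP_8b9287_co
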