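import Pool.Agent.MP_8b9287_co.Defs
import Pool.Agent.MP_8b9287_co.Ords
import Pool.Agent.MP_8b9287_co.Lagr

/-! The matroid part. -/

open Finset

namespace Pool.Agent.MP_8b9287_co

section lists
variable {α : Type} [DecidableEq α]

theorem idx1 {A B : List α} {x e : α} (hx : x ∈ A) (he : e ∉ A) :
    (A ++ B).idxOf x < (A ++ B).idxOf e := by
  rw [List.idxOf_append_of_mem hx, List.idxOf_append_of_notMem he]
  have := List.idxOf_lt_length_of_mem hx
  omega

theorem idx2 {A B : List α} {x e : α} (he : e ∈ A) (h : (A ++ B).idxOf x < (A ++ B).idxOf e) :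
    x ∈ A ∧ x ≠ e := by
  refine ⟨?_, fun h' => by rw [h'] at h; exact lt_irrefl _ h⟩
  by_contra hx
  exact lt_asymm h (idx1 he hx)

theorem fo_spec (Y : Finset α) (d : α) (w : List α) (h : ∃ x ∈ w, x ∈ Y) :
    ∃ w1 w2, w = w1 ++ fo Y d w :: w2 ∧ (∀ x ∈ w1, x ∉ Y) ∧ fo Y d w ∈ Y := by
  induction w with
  | nil => simp at h
  | cons c w ih =>
    by_cases hc : c ∈ Y
    · exact ⟨[], w, by simp [fo, hc], by simp, by simp [fo, hc]⟩
    · obtain ⟨x, hx, hx'⟩ := h
      obtain ⟨w1, w2, h1, h2, h3⟩ := ih ⟨x, (List.mem_cons.1 hx).resolve_left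
        (fun e => hc (e ▸ hx')), hx'⟩
      refine ⟨c :: w1, w2, ?_, ?_, ?_⟩
      · simp only [fo, if_neg hc, List.cons_append]; rw [← h1]
      · intro y hy
        rcases List.mem_cons.1 hy with rfl | hy
        · exact hc
        · exact h2 y hy
      · simpa only [fo, if_neg hc] using h3

end lists

variable {n : ℕ}

open Classical in
/-- the lexicographically first basis of a list -/
noncomputable def LB (M : Matroid (Fin n)) (l : List (Fin n)) : Finset (Fin n) :=
  Finset.univ.filter fun e => e ∉ M.closure {x | l.idxOf x < l.idxOf e}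

theorem idxOf_ofFn (σ : Equiv.Perm (Fin n)) (x : Fin n) :
    (List.ofFn σ).idxOf x = (σ.symm x : ℕ) := by
  have h := (List.nodup_ofFn.2 σ.injective).idxOf_getElem (i := σ.symm x) (by simp)
  simpa using h

theorem lexBasis_eq (M : Matroid (Fin n)) (σ : Equiv.Perm (Fin n)) :
    lexBasis M σ = LB M (List.ofFn σ) := by
  have : ∀ e, {x | σ.symm x < σ.symm e} =
      {x | (List.ofFn σ).idxOf x < (List.ofFn σ).idxOf e} := by
    intro e
    ext x
    simp only [Set.mem_ofPred_eq]
    rw [idxOf_ofFn, idxOf_ofFn, Fin.lt_def]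
  ext e
  simp only [lexBasis, LB, mem_filter, mem_univ, true_and]
  rw [this]

open Classical in
/-- closure as a finite set -/
noncomputable def cl (M : Matroid (Fin n)) (I : Finset (Fin n)) : Finset (Fin n) :=
  Finset.univ.filter fun e => e ∈ M.closure (I : Set (Fin n))

theorem mem_cl {M : Matroid (Fin n)} {I : Finset (Fin n)} {e : Fin n} :
    e ∈ cl M I ↔ e ∈ M.closure (I : Set (Fin n)) := by simp [cl]

/-- the paving hypotheses -/
structure Pav (M : Matroid (Fin n)) (κ : ℕ) : Prop where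
  hE : M.E = Set.univ
  hr : M.eRank = (κ + 1 : ℕ)
  hi : ∀ I : Finset (Fin n), I.card = κ → M.Indep (I : Set (Fin n))

variable {M : Matroid (Fin n)} {κ : ℕ}

theorem Pav.subset_cl (h : Pav M κ) (I : Finset (Fin n)) : I ⊆ cl M I := fun _ hx =>
  mem_cl.2 (M.subset_closure _ (by rw [h.hE]; exact Set.subset_univ _) hx)

theorem Pav.eRk (h : Pav M κ) {I : Finset (Fin n)} (hI : I.card = κ) :
    M.eRk (I : Set (Fin n)) = κ := by
  rw [(h.hi I hI).eRk_eq_encard, Set.encard_coe_eq_coe_finsetCard, hI]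

theorem Pav.cl_ne (h : Pav M κ) {I : Finset (Fin n)} (hI : I.card = κ) : ∃ x, x ∉ cl M I := by
  by_contra hc
  push Not at hc
  have h1 : M.closure (I : Set (Fin n)) = M.E := by
    rw [h.hE]; exact Set.eq_univ_of_forall fun x => mem_cl.1 (hc x)
  have h2 := M.eRk_closure_eq (I : Set (Fin n))
  rw [h1, Matroid.eRk_ground, h.hr, h.eRk hI] at h2
  have : κ + 1 = κ := by exact_mod_cast h2
  omega

theorem Pav.cl_eq (h : Pav M κ) {I J : Finset (Fin n)} (hI : I.card = κ) (hJ : J.card = κ)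
    (hJI : J ⊆ cl M I) : cl M J = cl M I := by
  have := (M.isRkFinite_of_finite (J.finite_toSet)).closure_eq_closure_of_subset_of_eRk_ge_eRk
    (Y := M.closure (I : Set (Fin n))) (fun x hx => mem_cl.1 (hJI hx))
    (by rw [Matroid.eRk_closure_eq, h.eRk hI, h.eRk hJ])
  rw [Matroid.closure_closure] at this
  ext x
  rw [mem_cl, mem_cl, this]

theorem Pav.span (h : Pav M κ) {I : Finset (Fin n)} (hI : I.card = κ) {b : Fin n}
    (hb : b ∉ cl M I) (e : Fin n) : e ∈ M.closure (insert b (I : Set (Fin n))) := by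
  have hbI : b ∉ I := fun h' => hb (h.subset_cl I h')
  have h1 : M.Indep (insert b (I : Set (Fin n))) := by
    rw [(h.hi I hI).insert_indep_iff_of_notMem (by simpa using hbI), h.hE]
    exact ⟨Set.mem_univ _, fun h' => hb (mem_cl.2 h')⟩
  have := (M.isRkFinite_of_finite (Set.toFinite (insert b (I : Set (Fin n))))
    ).closure_eq_closure_of_subset_of_eRk_ge_eRk (Y := M.E) h1.subset_ground (by
      rw [Matroid.eRk_ground, h.hr, h1.eRk_eq_encard,
        Set.encard_insert_of_notMem (by simpa using hbI), Set.encard_coe_eq_coe_finsetCard, hI]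
      exact le_of_eq (by push_cast; rfl))
  rw [this, Matroid.closure_ground, h.hE]
  exact Set.mem_univ _

theorem Pav.LB_eq (h : Pav M κ) {I : Finset (Fin n)} (hI : I.card = κ) {u w : List (Fin n)}
    (hu : u ∈ ords I) (hw : w ∈ ords (univ \ I)) (d : Fin n) :
    (LB M (u ++ w)).val = fo (univ \ cl M I) d w ::ₘ I.val := by
  obtain ⟨hu1, hu2⟩ := mem_ords.1 hu
  obtain ⟨hw1, hw2⟩ := mem_ords.1 hw
  have hu3 : ∀ x, x ∈ u ↔ x ∈ I := fun x => by rw [← hu2, List.mem_toFinset]
  have hw3 : ∀ x, x ∈ w ↔ x ∉ I := fun x => by rw [← List.mem_toFinset, hw2]; simp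
  obtain ⟨x0, hx0⟩ := h.cl_ne hI
  obtain ⟨w1, w2, h1, h2, h3⟩ := fo_spec (univ \ cl M I) d w
    ⟨x0, (hw3 _).2 fun h' => hx0 (h.subset_cl I h'), by simpa using hx0⟩
  generalize fo (univ \ cl M I) d w = b at h1 h3 ⊢
  have hb : b ∉ cl M I := (mem_sdiff.1 h3).2
  have hbI : b ∉ I := fun h' => hb (h.subset_cl I h')
  have h2' : ∀ x ∈ w1, x ∈ cl M I := fun x hx => by simpa using h2 x hx
  rw [← insert_val_of_notMem hbI]
  congr 1
  ext e
  simp only [LB, mem_filter, mem_univ, true_and, mem_insert]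
  by_cases he : e ∈ I
  · refine iff_of_true (fun hc => ?_) (Or.inr he)
    apply (h.hi I hI).notMem_closure_sdiff_of_mem (e := e) (by simpa using he)
    refine M.closure_subset_closure (fun x hx => ?_) hc
    have := idx2 ((hu3 e).2 he) hx
    exact ⟨by simpa using (hu3 x).1 this.1, this.2⟩
  · by_cases heb : e = b
    · subst heb
      refine iff_of_true (fun hc => hb (mem_cl.2 ?_)) (Or.inl rfl)
      refine M.closure_subset_closure_of_subset_closure (fun x hx => ?_) hc
      have e1 : u ++ w = (u ++ w1 ++ [e]) ++ w2 := by rw [h1]; simp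
      rw [e1] at hx
      obtain ⟨h4, h5⟩ := idx2 (by simp) hx
      simp only [List.mem_append, List.mem_singleton] at h4
      rcases h4 with (h4 | h4) | h4
      · exact mem_cl.1 (h.subset_cl I ((hu3 x).1 h4))
      · exact mem_cl.1 (h2' x h4)
      · exact absurd h4 h5
    · refine iff_of_false (not_not.2 ?_) (by tauto)
      by_cases he1 : e ∈ w1
      · refine M.closure_subset_closure (fun x hx => ?_) (mem_cl.1 (h2' e he1))
        exact idx1 ((hu3 x).2 (by simpa using hx)) (fun h' => he ((hu3 e).1 h'))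
      · refine M.closure_subset_closure (fun x hx => ?_) (h.span hI hb e)
        have e1 : u ++ w = (u ++ w1 ++ [b]) ++ w2 := by rw [h1]; simp
        rw [e1]
        apply idx1
        · rcases hx with rfl | hx
          · simp
          · simp [(hu3 x).2 (by simpa using hx)]
        · simp only [List.mem_append, List.mem_singleton, not_or]
          exact ⟨⟨fun h' => he ((hu3 e).1 h'), he1⟩, heb⟩

theorem schur_eq {k : ℕ} (η : Fin k → ℕ) (t : Fin n → ℚ) (B : Finset (Fin n)) :
    schur η t B = SS (fun i => (η i : ℤ)) (B.val.map t) := by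
  simp only [schur, SS, hsym, hZ, Hs, Multiset.map_map]
  rfl

theorem swap_sum {α : Type} [DecidableEq α] (H : Finset α) (f : Finset α → α → ℚ) :
    ∑ I ∈ powersetCard κ H, ∑ a ∈ H \ I, f I a =
      ∑ a ∈ H, ∑ I ∈ powersetCard κ (H.erase a), f I a := by
  apply Finset.sum_comm'
  intro I a
  simp only [mem_powersetCard, mem_sdiff, subset_erase]
  tauto

theorem prod_split {α : Type} [DecidableEq α] (t : α → ℚ) {I H : Finset α} (hI : I ⊆ H) {a : α}
    (ha : a ∉ I) : (∏ y ∈ I, (t y - t a)⁻¹) * ∏ y ∈ (H \ I).erase a, (t a - t y)⁻¹ =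
      (-1) ^ I.card * ∏ y ∈ H.erase a, (t a - t y)⁻¹ := by
  rw [← prod_sdiff (show I ⊆ H.erase a from subset_erase.2 ⟨hI, ha⟩), erase_sdiff_comm,
    ← prod_const, mul_comm, mul_left_comm, ← prod_mul_distrib]
  congr 1
  apply Finset.prod_congr rfl
  intro y _
  rw [← neg_sub, inv_neg, neg_one_mul]

theorem Pav.term (h : Pav M κ) {t : Fin n → ℚ} (ht : Function.Injective t) {I : Finset (Fin n)}
    (hI : I.card = κ) (G : Multiset ℚ → ℚ) :
    ∑ u ∈ ords I, ∑ w ∈ ords (univ \ I), wt t (u ++ w) * G ((LB M (u ++ w)).val.map t) =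
      ∑ a ∈ univ \ I, (-1) ^ κ * ((∏ y ∈ univ.erase a, (t a - t y)⁻¹) *
        DD t ∅ a fun b => G (t b ::ₘ I.val.map t)) -
      ∑ a ∈ cl M I \ I, (-1) ^ κ * ((∏ y ∈ (cl M I).erase a, (t a - t y)⁻¹) *
        DD t (univ \ cl M I) a fun b => G (t b ::ₘ I.val.map t)) := by
  obtain ⟨d, hd⟩ := h.cl_ne hI
  have hIH := h.subset_cl I
  have hL := fun u w hu hw => h.LB_eq hI (u := u) (w := w) hu hw d
  generalize cl M I = H at hd hIH hL ⊢
  let g : Fin n → ℚ := fun b => G (t b ::ₘ I.val.map t)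
  have e1 : ∑ u ∈ ords I, ∑ w ∈ ords (univ \ I), wt t (u ++ w) * G ((LB M (u ++ w)).val.map t) =
      ∑ a ∈ univ \ I, (∏ y ∈ I, (t y - t a)⁻¹) *
        ∑ v ∈ ords ((univ \ I).erase a), wt t (a :: v) * g (fo (univ \ H) d (a :: v)) := by
    rw [Finset.sum_congr rfl fun u hu => Finset.sum_congr rfl fun w hw => by
      rw [hL u w hu hw, Multiset.map_cons]]
    rw [Finset.sum_comm, sum_ords_cons _ ⟨d, by simpa using fun h' => hd (hIH h')⟩]
    apply Finset.sum_congr rfl
    intro a ha
    rw [Finset.mul_sum]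
    apply Finset.sum_congr rfl
    intro v _
    rw [← star_sum' ht I (mem_sdiff.1 ha).2, Finset.sum_mul]
    apply Finset.sum_congr rfl
    intro u _
    rw [wt_append, mul_assoc]
  have hsub : H \ I ⊆ univ \ I := sdiff_subset_sdiff (subset_univ _) Subset.rfl
  rw [e1, ← sum_sdiff hsub, ← sum_sdiff hsub, add_sub_assoc, ← sum_sub_distrib]
  congr 1
  · apply Finset.sum_congr rfl
    intro a ha
    have ha1 : a ∉ I := (mem_sdiff.1 (mem_sdiff.1 ha).1).2
    have ha2 : a ∈ univ \ H := by
      simp only [mem_sdiff, mem_univ, true_and] at ha ⊢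
      tauto
    simp only [fo, if_pos ha2]
    rw [← Finset.sum_mul, star_sum ht _ (notMem_erase a _), ← mul_assoc,
      prod_split t (subset_univ I) ha1, hI]
    simp [DD, g, mul_assoc]
  · apply Finset.sum_congr rfl
    intro a ha
    obtain ⟨ha1, ha2⟩ := mem_sdiff.1 ha
    have ha3 : a ∉ univ \ H := by simp [ha1]
    simp only [fo, if_neg ha3]
    rw [tree_sum ht (univ \ H) ⟨d, by simpa using hd⟩ d g _ (by
      intro y hy
      simp only [mem_sdiff, mem_univ, true_and, mem_erase] at hy ⊢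
      exact ⟨fun e => hy (e ▸ ha1), fun h' => hy (hIH h')⟩) (notMem_erase a _)]
    have e2 : (univ \ I).erase a \ (univ \ H) = (H \ I).erase a := by
      ext y; simp only [mem_sdiff, mem_erase, mem_univ, true_and]; tauto
    have e3 : ∏ y ∈ univ.erase a, (t a - t y)⁻¹ =
        (∏ y ∈ H.erase a, (t a - t y)⁻¹) * ∏ y ∈ univ \ H, (t a - t y)⁻¹ := by
      rw [← prod_sdiff (erase_subset_erase a (subset_univ H)), mul_comm]
      congr 2
      ext y
      simp only [mem_sdiff, mem_erase, mem_univ, true_and, and_true]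
      constructor
      · tauto
      · intro hy
        exact ⟨fun e => hy (e ▸ ha1), fun h' => hy h'.2⟩
    rw [e2, ← mul_assoc, prod_split t hIH ha2, hI, e3]
    simp only [DD, g, prod_empty, sum_empty]
    ring

theorem Pav.total {N k : ℕ} {M : Matroid (Fin (N + 1))} (h : Pav M κ) (hκ : κ ≤ N + 1)
    (η : Fin k → ℕ) {t : Fin (N + 1) → ℚ} (ht : Function.Injective t) :
    locSum M η t = CH t (fun i => (η i : ℤ)) κ univ ∅ -
      ∑ H ∈ (powersetCard κ univ).image (cl M), CH t (fun i => (η i : ℤ)) κ H (univ \ H) := by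
  have e1 : locSum M η t = ∑ l ∈ ords univ,
      wt t l * SS (fun i => (η i : ℤ)) ((LB M l).val.map t) := by
    rw [← sum_perm_eq, locSum]
    apply Finset.sum_congr rfl
    intro σ _
    rw [wt_ofFn, lexBasis_eq, schur_eq, div_eq_mul_inv, mul_comm]
  rw [e1, sum_ords_split univ κ (by simpa using hκ),
    Finset.sum_congr rfl fun I hI => h.term ht (mem_powersetCard.1 hI).2 (SS fun i => (η i : ℤ)),
    sum_sub_distrib]
  congr 1
  · rw [swap_sum, CH]
    simp only [Finset.mul_sum]
  · rw [← sum_fiberwise_of_maps_to (g := cl M) (fun I hI => mem_image_of_mem (cl M) hI)]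
    apply Finset.sum_congr rfl
    intro H hH
    obtain ⟨I0, hI0, rfl⟩ := mem_image.1 hH
    have hI0' := (mem_powersetCard.1 hI0).2
    have e2 : (powersetCard κ univ).filter (fun I => cl M I = cl M I0) =
        powersetCard κ (cl M I0) := by
      ext I
      simp only [mem_filter, mem_powersetCard, subset_univ, true_and]
      constructor
      · rintro ⟨h1, h2⟩
        exact ⟨h2 ▸ h.subset_cl I, h1⟩
      · rintro ⟨h1, h2⟩
        exact ⟨h2, h.cl_eq hI0' h2 h1⟩
    rw [Finset.sum_congr rfl fun I hI => by rw [(mem_filter.1 hI).2], e2, swap_sum, CH]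
    simp only [Finset.mul_sum]

theorem main_paving {N κ : ℕ} (hκ : κ < N) {M : Matroid (Fin (N + 1))} (h : Pav M κ)
    (η : Fin (κ + 1) → ℕ) (hη : Antitone η) (h0 : η 0 = N - κ) (hs : ∑ i, η i = N) :
    ∃ d : ℕ, ∀ t : Fin (N + 1) → ℚ, Function.Injective t → locSum M η t = d := by
  let μ : Fin κ → ℤ := fun i => η i.succ
  have hν : (fun i => (η i : ℤ)) = Fin.cons ((N - κ : ℕ) : ℤ) μ := by
    funext i
    rcases Fin.eq_zero_or_eq_succ i with rfl | ⟨i, rfl⟩
    · simp [h0]
    · simp [μ]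
  have hs' : ∑ i, (η i : ℤ) = N := by exact_mod_cast hs
  have hμ : ∑ i, μ i = κ := by
    rw [Fin.sum_univ_succ, h0] at hs'
    simp only [μ]
    omega
  obtain ⟨𝓜, h𝓜⟩ := comb_final κ (N - κ) (by omega) μ
    ⟨fun i j hij => by simpa [μ] using hη (Fin.succ_le_succ_iff.2 hij), fun i => by simp [μ]⟩ hμ
    (fun i => by rw [← h0]; simpa [μ] using hη (Fin.zero_le i.succ))
  let 𝓗 := (powersetCard κ univ).image (cl M)
  have hlt : ∀ H ∈ 𝓗, H.card < N + 1 := by
    intro H hH
    obtain ⟨I, hI, rfl⟩ := mem_image.1 hH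
    obtain ⟨x, hx⟩ := h.cl_ne (mem_powersetCard.1 hI).2
    have := card_lt_card (show cl M I ⊂ univ from
      ⟨subset_univ _, fun h' => hx (h' (mem_univ x))⟩)
    simpa using this
  have hp : ∀ m : ℕ, ∑ H ∈ 𝓗, M2 κ ((H.card : ℤ) - (κ + 1) - m) ≤ M2 κ (N - (κ + 1) - m) := by
    intro m
    have := pack (m : ℤ) (by omega) (N + 1) (univ : Finset (Fin (N + 1))) (by simp) κ 𝓗 id
      (fun H hH => ⟨subset_univ _, by simpa using hlt H hH⟩) (by
        intro H hH H' hH' hne
        by_contra hc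
        obtain ⟨J, hJ, hJ'⟩ := exists_subset_card_eq (s := H ∩ H') (n := κ) (by
          simp only [id] at hc; omega)
        obtain ⟨I, hI, rfl⟩ := mem_image.1 hH
        obtain ⟨I', hI', rfl⟩ := mem_image.1 hH'
        exact hne ((h.cl_eq (mem_powersetCard.1 hI).2 hJ' (hJ.trans inter_subset_left)).symm.trans
          (h.cl_eq (mem_powersetCard.1 hI').2 hJ' (hJ.trans inter_subset_right))))
    simpa using this
  refine ⟨(𝓜.map fun m : ℕ => M2 κ (N - (κ + 1) - m) -
    ∑ H ∈ 𝓗, M2 κ ((H.card : ℤ) - (κ + 1) - m)).sum, fun t ht => ?_⟩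
  have e1 : CH t (fun i => (η i : ℤ)) κ univ ∅ =
      (𝓜.map fun m : ℕ => (M2 κ (N - (κ + 1) - m) : ℚ)).sum := by
    rw [CH_eq ht _ N hs' κ univ_nonempty (disjoint_empty_right _) (by simp), hν,
      h𝓜 _ _ (by simp; omega)]
    congr 1
    apply Multiset.map_congr rfl
    intro m _
    congr 2
    simp only [card_empty]
    omega
  have e2 : ∀ H ∈ 𝓗, CH t (fun i => (η i : ℤ)) κ H (univ \ H) =
      (𝓜.map fun m : ℕ => (M2 κ ((H.card : ℤ) - (κ + 1) - m) : ℚ)).sum := by
    intro H hH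
    have hc : (univ \ H).card = N + 1 - H.card := by
      rw [card_sdiff_of_subset (subset_univ _)]; simp
    have := hlt H hH
    rcases H.eq_empty_or_nonempty with rfl | hne
    · rw [CH, sum_empty, mul_zero, Multiset.sum_eq_zero]
      intro x hx
      obtain ⟨m, -, rfl⟩ := Multiset.mem_map.1 hx
      rw [M2_neg _ (by simp only [card_empty]; omega), Nat.cast_zero]
    · rw [CH_eq ht _ N hs' κ hne disjoint_sdiff (by omega), hν, h𝓜 _ _ (by omega)]
      congr 1
      apply Multiset.map_congr rfl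
      intro m _
      congr 2
      omega
  rw [h.total (by omega) η ht, e1, Finset.sum_congr rfl e2, Nat.cast_multiset_sum,
    Multiset.map_map]
  simp only [Function.comp_def, Nat.cast_sub (hp _), Nat.cast_sum]
  rw [Multiset.sum_map_sub]
  congr 1
  exact Multiset.sum_map_sum.symm

end Pool.Agent.MP_8b9287_co
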